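import Pool.Agent.Work.MP_92a29d_co_h62.Edges

/-!
Homomorphisms to the Möbius ladder with 12 vertices: level sizes when there are at least 39 edges.
-/

namespace Pool.Agent.Work.MP_92a29d_co

open SimpleGraph Finset

section

variable {V : Type*} {G : SimpleGraph V}

/-- `h` is a homomorphism to the Möbius ladder on 12 vertices -/
def MHom (G : SimpleGraph V) (h : V → ZMod 12) : Prop :=
  ∀ u w, G.Adj u w → h w = h u + 1 ∨ h w = h u - 1 ∨ h w = h u + 6

theorem MHom.sub {h : V → ZMod 12} (hh : MHom G h) (a : ZMod 12) :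
    MHom G (fun u => h u - a) := by
  intro u w huw
  change h w - a = h u - a + 1 ∨ h w - a = h u - a - 1 ∨ h w - a = h u - a + 6
  rcases hh u w huw with e | e | e
  · left; rw [e]; ring
  · right; left; rw [e]; ring
  · right; right; rw [e]; ring

theorem MHom.neg_sub {h : V → ZMod 12} (hh : MHom G h) (a : ZMod 12) :
    MHom G (fun u => a - h u) := by
  intro u w huw
  change a - h w = a - h u + 1 ∨ a - h w = a - h u - 1 ∨ a - h w = a - h u + 6
  rcases hh u w huw with e | e | e
  · right; left; rw [e]; ring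
  · left; rw [e]; ring
  · right; right; rw [e]
    have h12 : (12 : ZMod 12) = 0 := by decide
    linear_combination - h12

theorem mhom_seven : ∀ x y : ZMod 12, x ≠ 0 → y ≠ 0 → (y = x + 1 ∨ y = x - 1 ∨ y = x + 6) →
    ((y.val : ZMod (2 * 2 + 3)) = (x.val : ZMod (2 * 2 + 3)) + 1 ∨
      (y.val : ZMod (2 * 2 + 3)) = (x.val : ZMod (2 * 2 + 3)) - 1) := by
  decide +kernel

/-- If a label is not used, there is a homomorphism to the cycle of length 7. -/
theorem MHom.cycHom {h : V → ZMod 12} (hh : MHom G h) (a : ZMod 12) (ha : ∀ u, h u ≠ a) :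
    ∃ f : V → ZMod (2 * 2 + 3), CycHom G (2 * 2 + 3) f := by
  refine ⟨fun u => ((h u - a).val : ZMod (2 * 2 + 3)), ?_⟩
  intro u w huw
  exact mhom_seven _ _ (sub_ne_zero.2 (ha u)) (sub_ne_zero.2 (ha w)) (hh.sub a u w huw)

/-- the edges of the Möbius ladder -/
def mEdges : List (ZMod 12 × ZMod 12) :=
  [(0, 1), (1, 2), (2, 3), (3, 4), (4, 5), (5, 6), (6, 7), (7, 8), (8, 9), (9, 10), (10, 11),
    (11, 0), (0, 6), (1, 7), (2, 8), (3, 9), (4, 10), (5, 11)]

theorem mem_mEdges : ∀ x y : ZMod 12, (y = x + 1 ∨ y = x - 1 ∨ y = x + 6) →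
    (x, y) ∈ mEdges.toFinset ∨ (y, x) ∈ mEdges.toFinset := by
  decide +kernel

theorem MHom.ecard_le [Fintype V] {h : V → ZMod 12} (hh : MHom G h) :
    ecard G ≤ (mEdges.map fun p => wt h p.1 * wt h p.2).sum := by
  have h1 := ecard_le_rel G h mEdges.toFinset (fun u w huw => mem_mEdges _ _ (hh u w huw))
  rw [List.sum_toFinset _ (by decide +kernel)] at h1
  exact h1

/-! ### the finite check -/

/-- lists of length `k` with sum `n` -/
def comps : ℕ → ℕ → List (List ℕ)
  | 0, 0 => [[]]
  | 0, _ + 1 => []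
  | k + 1, n => (List.range (n + 1)).flatMap fun a => (comps k (n - a)).map (a :: ·)

theorem mem_comps : ∀ (k : ℕ) (l : List ℕ), l.length = k → l ∈ comps k l.sum
  | 0, l, hl => by
    rw [List.length_eq_zero_iff] at hl
    subst hl
    simp [comps]
  | k + 1, l, hl => by
    match l, hl with
    | a :: l, hl =>
      rw [List.length_cons, Nat.add_right_cancel_iff] at hl
      have := mem_comps k l hl
      rw [comps, List.mem_flatMap]
      refine ⟨a, ?_, ?_⟩
      · rw [List.mem_range, List.sum_cons]; omega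
      · rw [List.mem_map]
        refine ⟨l, ?_, rfl⟩
        rw [List.sum_cons, Nat.add_sub_cancel_left]
        exact this

/-- upper bounds for the level sizes -/
def szm : List ℕ := [1, 1, 3, 4, 3, 1, 1, 1, 4, 3, 4, 1]

/-- label seen from `a` -/
def lab12 (e : Bool) (a l : ℕ) : ℕ := cond e ((a + l) % 12) ((a + 12 - l) % 12)

def okAt (t : List ℕ) (e : Bool) (a : ℕ) : Bool :=
  (List.range 12).all (fun l => Nat.ble (t.getD (lab12 e a l) 0 + 1) (szm.getD l 0)) &&
  Nat.beq (([1, 3, 5, 8, 10] : List ℕ).map fun l => t.getD (lab12 e a l) 0 + 1).sum 8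

def esum (t : List ℕ) : ℕ :=
  (mEdges.map fun p => (t.getD p.1.val 0 + 1) * (t.getD p.2.val 0 + 1)).sum

def chk12 (t : List ℕ) : Bool :=
  Nat.ble (esum t) 39 &&
    (Nat.blt (esum t) 39 || (List.range 12).any fun a => okAt t true a || okAt t false a)

theorem chk12_all : (comps 12 5).all chk12 = true := by decide +kernel

theorem wt_sum [Fintype V] (h : V → ZMod 12) : ∑ a, wt h a = Fintype.card V := by
  classical
  have h3 := Finset.card_eq_sum_card_fiberwise (s := (univ : Finset V))
    (t := (univ : Finset (ZMod 12))) (f := h) (fun _ _ => mem_coe.2 (mem_univ _))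
  rw [Finset.card_univ] at h3
  rw [h3]
  exact Finset.sum_congr rfl (fun j _ => by rw [wt_eq])

/-- the list of the numbers `wt - 1` -/
noncomputable def tl [Fintype V] (h : V → ZMod 12) : List ℕ :=
  (List.range 12).map fun (i : ℕ) => wt h (i : ZMod 12) - 1

theorem tl_getD [Fintype V] {h : V → ZMod 12} (hne : ∀ a, 1 ≤ wt h a) {i : ℕ} (hi : i < 12) :
    (tl h).getD i 0 + 1 = wt h (i : ZMod 12) := by
  unfold tl
  rw [List.getD_eq_getElem _ _ (by simpa using hi), List.getElem_map, List.getElem_range]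
  have := hne (i : ZMod 12)
  omega

theorem wt_sum_range [Fintype V] (h : V → ZMod 12) :
    ∑ i ∈ range 12, wt h ((i : ℕ) : ZMod 12) = Fintype.card V := by
  rw [← wt_sum h, sum_zmod_range (fun a => wt h a) 0]
  exact Finset.sum_congr rfl (fun i _ => by rw [zero_add])

theorem tl_mem [Fintype V] (hV : Fintype.card V = 17) {h : V → ZMod 12}
    (hne : ∀ a, 1 ≤ wt h a) : tl h ∈ comps 12 5 := by
  have h1 : (tl h).sum = 5 := by
    have h2 := wt_sum_range h
    rw [hV] at h2
    have e : List.range 12 = [0, 1, 2, 3, 4, 5, 6, 7, 8, 9, 10, 11] := rfl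
    unfold tl
    rw [e]
    simp only [Finset.sum_range_succ, Finset.sum_range_zero] at h2
    simp only [List.map_cons, List.map_nil, List.sum_cons, List.sum_nil]
    have g0 := hne ((0 : ℕ) : ZMod 12)
    have g1 := hne ((1 : ℕ) : ZMod 12)
    have g2 := hne ((2 : ℕ) : ZMod 12)
    have g3 := hne ((3 : ℕ) : ZMod 12)
    have g4 := hne ((4 : ℕ) : ZMod 12)
    have g5 := hne ((5 : ℕ) : ZMod 12)
    have g6 := hne ((6 : ℕ) : ZMod 12)
    have g7 := hne ((7 : ℕ) : ZMod 12)
    have g8 := hne ((8 : ℕ) : ZMod 12)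
    have g9 := hne ((9 : ℕ) : ZMod 12)
    have g10 := hne ((10 : ℕ) : ZMod 12)
    have g11 := hne ((11 : ℕ) : ZMod 12)
    omega
  have h5 := mem_comps 12 (tl h) (by simp [tl])
  rw [h1] at h5
  exact h5

theorem esum_tl [Fintype V] {h : V → ZMod 12} (hne : ∀ a, 1 ≤ wt h a) :
    esum (tl h) = (mEdges.map fun p => wt h p.1 * wt h p.2).sum := by
  unfold esum
  congr 1
  apply List.map_congr_left
  intro p _
  rw [tl_getD hne (ZMod.val_lt _), tl_getD hne (ZMod.val_lt _), ZMod.natCast_zmod_val,
    ZMod.natCast_zmod_val]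

theorem MHom.ecard_le_39 [Fintype V] (hV : Fintype.card V = 17) {h : V → ZMod 12}
    (hh : MHom G h) (hne : ∀ a, 1 ≤ wt h a) : ecard G ≤ 39 := by
  have h1 := List.all_eq_true.1 chk12_all _ (tl_mem hV hne)
  unfold chk12 at h1
  rw [Bool.and_eq_true, Nat.ble_eq, esum_tl hne] at h1
  exact hh.ecard_le.trans h1.1

theorem mhom_of_nat {f : V → ℕ} (hadj : ∀ u w, G.Adj u w → (f u + 1) % 12 = f w ∨
      (f w + 1) % 12 = f u ∨ (f u + 6) % 12 = f w) : MHom G (fun u => (f u : ZMod 12)) := by
  intro u w huw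
  change (f w : ZMod 12) = f u + 1 ∨ (f w : ZMod 12) = f u - 1 ∨ (f w : ZMod 12) = f u + 6
  rcases hadj u w huw with e | e | e
  · left; rw [← e, ZMod.natCast_mod, Nat.cast_add, Nat.cast_one]
  · right; left; rw [← e, ZMod.natCast_mod, Nat.cast_add, Nat.cast_one]; ring
  · right; right; rw [← e, ZMod.natCast_mod, Nat.cast_add, Nat.cast_ofNat]

/-- A graph which maps to the Möbius ladder on 12 vertices maps to the cycle of length 7 or uses
all labels. -/
theorem MHom.cases [Fintype V] {h : V → ZMod 12} (hh : MHom G h) :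
    (∃ f : V → ZMod (2 * 2 + 3), CycHom G (2 * 2 + 3) f) ∨ ∀ a, 1 ≤ wt h a := by
  classical
  by_cases hne : ∀ a, 1 ≤ wt h a
  · exact Or.inr hne
  · left
    push Not at hne
    obtain ⟨a, ha⟩ := hne
    refine hh.cycHom a (fun u hu => ?_)
    rw [wt_eq, Nat.lt_one_iff, Finset.card_eq_zero, Finset.filter_eq_empty_iff] at ha
    exact ha (mem_univ u) hu

/-- The second alternative of `Ball.classify`: a homomorphism to the cycle of length 7 or at most
39 edges. -/
theorem moebius_edges [Fintype V] (hV : Fintype.card V = 17) {f : V → ℕ}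
    (hadj : ∀ u w, G.Adj u w → (f u + 1) % 12 = f w ∨ (f w + 1) % 12 = f u ∨
      (f u + 6) % 12 = f w) :
    (∃ f : V → ZMod (2 * 2 + 3), CycHom G (2 * 2 + 3) f) ∨ ecard G ≤ 39 := by
  rcases (mhom_of_nat hadj).cases with h | h
  · exact Or.inl h
  · exact Or.inr ((mhom_of_nat hadj).ecard_le_39 hV h)

theorem MHom.exists_pattern [Fintype V] (hV : Fintype.card V = 17) {h : V → ZMod 12}
    (hh : MHom G h) (hne : ∀ a, 1 ≤ wt h a) (he : 39 ≤ ecard G) :
    ∃ h' : V → ZMod 12, MHom G h' ∧ (∀ l : ℕ, l < 12 → 1 ≤ wt h' (l : ZMod 12) ∧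
      wt h' (l : ZMod 12) ≤ szm.getD l 0) ∧
      (([1, 3, 5, 8, 10] : List ℕ).map fun (l : ℕ) => wt h' (l : ZMod 12)).sum = 8 := by
  have h1 := List.all_eq_true.1 chk12_all _ (tl_mem hV hne)
  unfold chk12 at h1
  rw [Bool.and_eq_true, Bool.or_eq_true, Nat.blt_eq, List.any_eq_true] at h1
  have h1 := h1.2
  have h2 := esum_tl hne
  have h3 := hh.ecard_le
  rcases h1 with h1 | ⟨a, ha, h1⟩
  · omega
  rw [List.mem_range] at ha
  have key : ∀ (e : Bool), okAt (tl h) e a = true → ∃ h' : V → ZMod 12, MHom G h' ∧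
      (∀ l : ℕ, l < 12 → 1 ≤ wt h' (l : ZMod 12) ∧ wt h' (l : ZMod 12) ≤ szm.getD l 0) ∧
      (([1, 3, 5, 8, 10] : List ℕ).map fun (l : ℕ) => wt h' (l : ZMod 12)).sum = 8 := by
    intro e hok
    have hlab : ∀ l : ℕ, l < 12 → lab12 e a l < 12 := by
      intro l _
      unfold lab12
      cases e <;> exact Nat.mod_lt _ (by norm_num)
    obtain ⟨h', hh', hw⟩ : ∃ h' : V → ZMod 12, MHom G h' ∧
        ∀ l : ℕ, l < 12 → wt h' (l : ZMod 12) = wt h ((lab12 e a l : ℕ) : ZMod 12) := by
      cases e
      · refine ⟨fun u => (a : ZMod 12) - h u, hh.neg_sub _, ?_⟩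
        intro l hl
        classical
        rw [wt_eq, wt_eq]
        congr 1
        apply Finset.filter_congr
        intro u _
        have : ((lab12 false a l : ℕ) : ZMod 12) = a - l := by
          change ((((a + 12 - l) % 12 : ℕ)) : ZMod 12) = a - l
          rw [ZMod.natCast_mod, Nat.cast_sub (by omega), Nat.cast_add]
          have h12 : ((12 : ℕ) : ZMod 12) = 0 := by decide
          rw [h12, add_zero]
        rw [this]
        constructor
        · intro h4; rw [← h4]; ring
        · intro h4; rw [h4]; ring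
      · refine ⟨fun u => h u - (a : ZMod 12), hh.sub _, ?_⟩
        intro l hl
        classical
        rw [wt_eq, wt_eq]
        congr 1
        apply Finset.filter_congr
        intro u _
        have : ((lab12 true a l : ℕ) : ZMod 12) = a + l := by
          change ((((a + l) % 12 : ℕ)) : ZMod 12) = a + l
          rw [ZMod.natCast_mod, Nat.cast_add]
        rw [this]
        constructor
        · intro h4; rw [← h4]; ring
        · intro h4; rw [h4]; ring
    refine ⟨h', hh', ?_, ?_⟩
    · intro l hl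
      rw [hw l hl]
      refine ⟨hne _, ?_⟩
      rw [← tl_getD hne (hlab l hl)]
      unfold okAt at hok
      rw [Bool.and_eq_true, List.all_eq_true] at hok
      exact Nat.le_of_ble_eq_true (hok.1 l (List.mem_range.2 hl))
    · unfold okAt at hok
      rw [Bool.and_eq_true, Nat.beq_eq] at hok
      refine Eq.trans ?_ hok.2
      congr 1
      apply List.map_congr_left
      intro l hl
      have hl12 : l < 12 := by
        simp only [List.mem_cons, List.not_mem_nil, or_false] at hl
        omega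
      rw [hw l hl12, tl_getD hne (hlab l hl12)]
  rw [Bool.or_eq_true] at h1
  rcases h1 with h1 | h1
  · exact key true h1
  · exact key false h1

end

end Pool.Agent.Work.MP_92a29d_co
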