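import Pool.Agent.Work.MP_92a29d_co_h36.Excl

/-! Family of instances (generated). -/

namespace Pool.Agent.Work.MP_92a29d_co.Place

open Pool.Agent.Work.MP_92a29d_co_h45

def f6222A2_S : Spec where
  K := 9
  cons := [(511, 17, 17), (7, 1, 1), (56, 8, 8), (448, 8, 8), (73, 1, 1), (146, 8, 8), (292, 8, 8), (16, 0, 4), (32, 0, 4), (128, 0, 4), (256, 0, 4), (1, 0, 0), (4, 0, 0)]
  data := [(0, 73786976294854983745, 153514389792333863454752),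
    (1, 1073741889, 153514389792333863454752),
    (2, 4722366482938364690497, 153514389792333863454688),
    (3, 16781313, 153514389792333863454688),
    (4, 4399120257025, 153514389792333863454688),
    (5, 281543696191489, 153514389792333863421920),
    (6, 17039361, 153514389792333846644704),
    (7, 18014399583485953, 153514389792325256710112),
    (8, 1152921573326585857, 153514389791775498799055)]
  HG := 153519074679996786313329
  G := 153514389792333863454752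
  maps := [[0, 1, 2, 3, 4, 5, 6, 7, 8],
    [0, 1, 2, 6, 7, 8, 3, 4, 5]]
  mapsP := [[1099511627776, 34359738368, 1073741824, 33554432, 1048576, 32768, 1024, 32, 1],
    [33554432, 1048576, 32768, 1099511627776, 34359738368, 1073741824, 1024, 32, 1]]
  places := [[1, 3, 4, 4, 4, 5, 5, 5, 5, 7, 7, 7, 7, 8, 8, 8, 8]]
  placesP := [4535622860832]

def f6222A2_T : Spec2 where
  S := f6222A2_S
  B := 3
  k := 2
  pats := [([], 17, 17), ([(0, 0)], 1, 1), ([(0, 1)], 8, 8), ([(0, 2)], 8, 8), ([(1, 0)], 1, 1), ([(1, 1)], 8, 8), ([(1, 2)], 8, 8), ([(0, 1), (1, 1)], 0, 4), ([(0, 1), (1, 2)], 0, 4), ([(0, 2), (1, 1)], 0, 4), ([(0, 2), (1, 2)], 0, 4), ([(0, 0), (1, 0)], 0, 0), ([(0, 0), (1, 2)], 0, 0)]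
  syms := [([0, 1], [0, 0]), ([0, 1], [1, 0])]

def f6222A2_cd : List CD := [⟨.lev 2, [(1, 1), (1, 6), (1, 6), (1, 6), (1, 6), (1, 6), (1, 6)], [0, 1, 2, 1, 2, 1, 2]⟩,
  ⟨.lev 6, [(1, 1), (1, 1), (1, 1), (1, 1), (1, 1), (1, 1), (1, 1), (2, 2), (2, 2), (1, 1), (1, 1), (1, 1), (1, 1), (1, 1), (1, 1)], [0, 1, 2, 1, 2, 1, 2, 1, 2, 1, 2, 1, 2, 1, 2]⟩]

def f6222A2_m : Fin 4 → ℕ := ![2, 6, 2, 2]

def f6222A2_I0 : Inst := { kinds := [.lev 2, .lev 6, .expl 2, .expl 2], lv := [[[0], [1, 3, 5], [1, 3, 5], [1, 3, 5], [1, 3, 5], [1, 3, 5], [1, 3, 5], [1, 3, 5], [1, 3, 5], [2, 4, 6], [2, 4, 6], [2, 4, 6], [2, 4, 6], [2, 4, 6], [2, 4, 6], [2, 4, 6], [2, 4, 6]], [[7], [0], [1, 3, 5, 7, 9, 11, 13], [1, 3, 5, 7, 9, 11, 13], [1, 3, 5, 7, 9, 11, 13], [2, 4, 6, 8, 10, 12, 14], [2, 4, 6, 8, 10, 12, 14], [2, 4, 6, 8, 10, 12, 14], [2, 4, 6, 8, 10, 12, 14], [1, 3, 5, 7, 9, 11, 13], [1, 3, 5, 7,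 9, 11, 13], [1, 3, 5, 7, 9, 11, 13], [1, 3, 5, 7, 9, 11, 13], [2, 4, 6, 8, 10, 12, 14], [2, 4, 6, 8, 10, 12, 14], [2, 4, 6, 8, 10, 12, 14], [2, 4, 6, 8, 10, 12, 14]]], ne := [(0, 1), (0, 2), (0, 3), (0, 4), (0, 5), (0, 6), (1, 1), (1, 2), (1, 3), (1, 4), (1, 5), (1, 6), (1, 7), (1, 8), (1, 9), (1, 10), (1, 11), (1, 12), (1, 13), (1, 14)], size := [(1, 1, 1), (1, 2, 1), (1, 3, 1), (1, 4, 1), (1, 5, 1), (1, 6, 1), (1, 7, 2), (1, 8, 2), (1, 9, 1), (1, 10, 1), (1, 11, 1), (1, 12, 1), (1, 13, 1), (1, 14, 1)], lex := [(2, 3), (3, 4), (5, 6), (6, 7), (7, 8), (9, 10), (10, 11), (11, 12), (13, 14), (14, 15), (15, 16)], five := [], forbid := [] }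

theorem f6222A2_fam : famB f6222A2_T f6222A2_cd f6222A2_m [(0, 1, 7)] [] [[f6222A2_I0]] = true := by decide +kernel

end Pool.Agent.Work.MP_92a29d_co.Place
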