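import Pool.Agent.Work.MP_92a29d_co_h36.Excl

/-! Family of instances (generated). -/

namespace Pool.Agent.Work.MP_92a29d_co.Place

open Pool.Agent.Work.MP_92a29d_co_h45

def f6222B_S : Spec where
  K := 9
  cons := [(511, 17, 17), (7, 2, 2), (56, 7, 8), (448, 7, 8), (73, 1, 1), (146, 8, 8), (292, 8, 8), (16, 0, 4), (32, 0, 4), (128, 0, 4), (256, 0, 4), (1, 1, 1)]
  data := [(0, 73786976294854983745, 2324875364210378410016),
    (1, 1073741889, 2324875364210378410016),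
    (2, 68719476801, 2324875364210378409888),
    (3, 16781313, 2324875364210378409888),
    (4, 4399120257025, 2324875364210378409888),
    (5, 281543696191489, 2324875364210378381216),
    (6, 17039361, 2324875364210361604000),
    (7, 18014399583485953, 2324875364201771669408),
    (8, 1152921573326585857, 2324875363652014020495)]
  HG := 2477134204462977681585
  G := 2398662340505216616480
  maps := [[0, 1, 2, 3, 4, 5, 6, 7, 8],
    [0, 2, 1, 3, 5, 4, 6, 8, 7],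
    [0, 1, 2, 6, 7, 8, 3, 4, 5],
    [0, 2, 1, 6, 8, 7, 3, 5, 4]]
  mapsP := [[1099511627776, 34359738368, 1073741824, 33554432, 1048576, 32768, 1024, 32, 1],
    [34359738368, 1099511627776, 1073741824, 1048576, 33554432, 32768, 32, 1024, 1],
    [33554432, 1048576, 32768, 1099511627776, 34359738368, 1073741824, 1024, 32, 1],
    [1048576, 33554432, 32768, 34359738368, 1099511627776, 1073741824, 32, 1024, 1]]
  places := [[0, 1, 4, 4, 4, 4, 5, 5, 5, 5, 7, 7, 7, 8, 8, 8, 8]]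
  placesP := [4501264138273]

def f6222B_T : Spec2 where
  S := f6222B_S
  B := 3
  k := 2
  pats := [([], 17, 17), ([(0, 0)], 2, 2), ([(0, 1)], 7, 8), ([(0, 2)], 7, 8), ([(1, 0)], 1, 1), ([(1, 1)], 8, 8), ([(1, 2)], 8, 8), ([(0, 1), (1, 1)], 0, 4), ([(0, 1), (1, 2)], 0, 4), ([(0, 2), (1, 1)], 0, 4), ([(0, 2), (1, 2)], 0, 4), ([(0, 0), (1, 0)], 1, 1)]
  syms := [([0, 1], [0, 0]), ([0, 1], [0, 1]), ([0, 1], [1, 0]), ([0, 1], [1, 1])]

def f6222B_cd : List CD := [⟨.lev 2, [(2, 2), (1, 6), (1, 6), (1, 6), (1, 6), (1, 6), (1, 6)], [0, 1, 2, 1, 2, 1, 2]⟩,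
  ⟨.lev 6, [(1, 1), (1, 1), (1, 1), (1, 2), (1, 2), (1, 2), (1, 2), (1, 2), (1, 2), (1, 2), (1, 2), (1, 2), (1, 2), (1, 1), (1, 1)], [0, 1, 2, 1, 2, 1, 2, 1, 2, 1, 2, 1, 2, 1, 2]⟩]

def f6222B_m : Fin 4 → ℕ := ![2, 6, 2, 2]

def f6222B_I0 : Inst := { kinds := [.lev 2, .lev 6, .expl 2, .expl 2], lv := [[[0], [0], [1, 3, 5], [1, 3, 5], [1, 3, 5], [1, 3, 5], [1, 3, 5], [1, 3, 5], [1, 3, 5], [1, 3, 5], [2, 4, 6], [2, 4, 6], [2, 4, 6], [2, 4, 6], [2, 4, 6], [2, 4, 6], [2, 4, 6]], [[0], [1, 3, 5, 7, 9, 11, 13], [1, 3, 5, 7, 9, 11, 13], [1, 3, 5, 7, 9, 11, 13], [1, 3, 5, 7, 9, 11, 13], [1, 3, 5, 7, 9, 11, 13], [2, 4, 6, 8, 10, 12, 14], [2, 4, 6, 8, 10, 12, 14], [2, 4, 6, 8, 10, 12, 14], [2, 4, 6, 8, 10, 12, 14], [1, 3, 5, 7, 9, 11, 13], [1, 3, 5, 7, 9, 11, 13], [1, 3, 5, 7, 9, 11, 13], [2, 4, 6, 8, 10, 12, 14], [2, 4, 6, 8, 10, 12, 14], [2, 4, 6, 8, 10, 12, 14], [2, 4, 6, 8,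 10, 12, 14]]], ne := [(0, 1), (0, 2), (0, 3), (0, 4), (0, 5), (0, 6), (1, 1), (1, 2), (1, 3), (1, 4), (1, 5), (1, 6), (1, 7), (1, 8), (1, 9), (1, 10), (1, 11), (1, 12), (1, 13), (1, 14)], size := [(1, 1, 1), (1, 2, 1), (1, 3, 2), (1, 4, 2), (1, 5, 2), (1, 6, 2), (1, 7, 2), (1, 8, 2), (1, 9, 2), (1, 10, 2), (1, 11, 2), (1, 12, 2), (1, 13, 1), (1, 14, 1)], lex := [(2, 3), (3, 4), (4, 5), (6, 7), (7, 8), (8, 9), (10, 11), (11, 12), (13, 14), (14, 15), (15, 16)], five := [], forbid := [] }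

theorem f6222B_fam : famB f6222B_T f6222B_cd f6222B_m [] [([(0, 0), (1, 0)], 1, 1)] [[f6222B_I0]] = true := by decide +kernel

end Pool.Agent.Work.MP_92a29d_co.Place
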