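import Pool.Agent.Work.MP_92a29d_co_h16.Profiles

/-!
The class with `m = 6`: level sizes seen from a vertex.
-/

namespace Pool.Agent.Work.MP_92a29d_co

open SimpleGraph Finset

section

variable {V : Type*} [Fintype V] {G : SimpleGraph V}

/-- sizes of the levels: the levels `d` and `d + 1` have two vertices -/
def dbl (d a : ℕ) : ℕ := if a = d ∨ a = d + 1 then 2 else 1

/-- the level sizes counted from `j` are `dbl d` -/
structure SixAt (G : SimpleGraph V) (f : V → ZMod (2 * 6 + 3)) (j : ZMod (2 * 6 + 3)) (d : ℕ) :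
    Prop where
  hom : CycHom G (2 * 6 + 3) f
  size : ∀ a : ℕ, a < 15 → lsize f (j + a) = dbl d a

theorem fifteen_eq : (15 : ZMod (2 * 6 + 3)) = 0 := by decide

theorem exists_sixAt (hV : Fintype.card V = 17) {f : V → ZMod (2 * 6 + 3)}
    (hf : CycHom G (2 * 6 + 3) f) (hα : AlphaEight G) : ∃ j, SixAt G f j 13 := by
  obtain ⟨j, h1, h2, h3⟩ := profile_six hV hf hα
  refine ⟨j, hf, ?_⟩
  intro a ha
  unfold dbl
  by_cases ha1 : a < 13
  · rw [if_neg (by omega)]
    exact h1 a ha1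
  · rw [if_pos (by omega)]
    have : a = 13 ∨ a = 14 := by omega
    rcases this with rfl | rfl
    · rw [Nat.cast_ofNat]; exact h2
    · rw [Nat.cast_ofNat]; exact h3

theorem cast_sub15 {n : ℕ} (h : 15 ≤ n) :
    ((n : ℕ) : ZMod (2 * 6 + 3)) = ((n - 15 : ℕ) : ZMod (2 * 6 + 3)) := by
  have h1 : n = (n - 15) + 15 := by omega
  conv_lhs => rw [h1]
  rw [Nat.cast_add, Nat.cast_ofNat, fifteen_eq, add_zero]

theorem SixAt.rot {f : V → ZMod (2 * 6 + 3)} {j : ZMod (2 * 6 + 3)} (h : SixAt G f j 13) {s : ℕ}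
    (hs : s ≤ 12) : SixAt G f (j + s) (13 - s) := by
  refine ⟨h.hom, ?_⟩
  intro a ha
  have e : j + (s : ZMod (2 * 6 + 3)) + a = j + ((s + a : ℕ) : ZMod (2 * 6 + 3)) := by
    push_cast; ring
  rw [e]
  by_cases h1 : s + a < 15
  · rw [h.size _ h1]
    unfold dbl
    by_cases h2 : s + a = 13 ∨ s + a = 14
    · rw [if_pos (by omega), if_pos (by omega)]
    · rw [if_neg (by omega), if_neg (by omega)]
  · rw [cast_sub15 (by omega), h.size _ (by omega)]
    unfold dbl
    rw [if_neg (by omega), if_neg (by omega)]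

theorem SixAt.refl {f : V → ZMod (2 * 6 + 3)} {j : ZMod (2 * 6 + 3)} {d : ℕ}
    (h : SixAt G f j d) (h1 : 1 ≤ d) (h2 : d ≤ 13) :
    SixAt G (fun u => - f u) (-j) (14 - d) := by
  refine ⟨h.hom.reflect, ?_⟩
  intro a ha
  rw [lsize_neg]
  rcases Nat.eq_zero_or_pos a with rfl | ha0
  · have := h.size 0 (by norm_num)
    rw [Nat.cast_zero, add_zero] at this ⊢
    rw [neg_neg, this]
    unfold dbl
    rw [if_neg (by omega), if_neg (by omega)]
  · have e : -(-j + (a : ZMod (2 * 6 + 3))) = j + ((15 - a : ℕ) : ZMod (2 * 6 + 3)) := by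
      rw [Nat.cast_sub (by omega), Nat.cast_ofNat, fifteen_eq]
      ring
    rw [e, h.size _ (by omega)]
    unfold dbl
    by_cases h3 : 15 - a = d ∨ 15 - a = d + 1
    · rw [if_pos h3, if_pos (by omega)]
    · rw [if_neg h3, if_neg (by omega)]

omit [Fintype V] in
/-- the position of a vertex -/
theorem exists_pos (f : V → ZMod (2 * 6 + 3)) (j : ZMod (2 * 6 + 3)) (v : V) :
    ∃ s : ℕ, s < 15 ∧ f v = j + s := by
  refine ⟨(f v - j).val, ZMod.val_lt _, ?_⟩
  rw [ZMod.natCast_zmod_val]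
  ring

/-- the level sizes counted from `j` are 2, 2, 1, 1, ... -/
structure SixD (G : SimpleGraph V) (f : V → ZMod (2 * 6 + 3)) (j : ZMod (2 * 6 + 3)) :
    Prop where
  hom : CycHom G (2 * 6 + 3) f
  size : ∀ a : ℕ, a < 15 → lsize f (j + a) = if a ≤ 1 then 2 else 1

theorem SixAt.dbl13 {f : V → ZMod (2 * 6 + 3)} {j : ZMod (2 * 6 + 3)} (h : SixAt G f j 13) :
    SixD G f (j + 13) := by
  refine ⟨h.hom, ?_⟩
  intro a ha
  have e : j + 13 + (a : ZMod (2 * 6 + 3)) = j + ((13 + a : ℕ) : ZMod (2 * 6 + 3)) := by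
    push_cast; ring
  rw [e]
  by_cases h1 : a ≤ 1
  · rw [if_pos h1, h.size _ (by omega)]
    unfold dbl
    rw [if_pos (by omega)]
  · rw [if_neg h1, cast_sub15 (by omega), h.size _ (by omega)]
    unfold dbl
    rw [if_neg (by omega)]

theorem SixAt.dbl14 {f : V → ZMod (2 * 6 + 3)} {j : ZMod (2 * 6 + 3)} (h : SixAt G f j 13) :
    SixD G (fun u => - f u) (-(j + 14)) := by
  refine ⟨h.hom.reflect, ?_⟩
  intro a ha
  rw [lsize_neg]
  have e : -(-(j + 14) + (a : ZMod (2 * 6 + 3))) = j + ((14 - a : ℕ) : ZMod (2 * 6 + 3)) := by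
    rw [Nat.cast_sub (by omega), Nat.cast_ofNat]
    ring
  rw [e, h.size _ (by omega)]
  unfold dbl
  by_cases h1 : a ≤ 1
  · rw [if_pos (by omega), if_pos h1]
  · rw [if_neg (by omega), if_neg h1]

/-- both vertices on double levels -/
theorem SixAt.two {f : V → ZMod (2 * 6 + 3)} {j : ZMod (2 * 6 + 3)} (h : SixAt G f j 13)
    {x y : V} (hx : f x = j + 13 ∨ f x = j + 14) (hy : f y = j + 13 ∨ f y = j + 14) :
    ∃ f' j', SixD G f' j' ∧ f' x = j' ∧ (f' y = j' ∨ f' y = j' + 1) := by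
  rcases hx with hx | hx
  · refine ⟨f, j + 13, h.dbl13, hx, ?_⟩
    rcases hy with hy | hy
    · exact Or.inl hy
    · right; rw [hy]; ring
  · refine ⟨fun u => - f u, -(j + 14), h.dbl14, by change - f x = _; rw [hx], ?_⟩
    change - f y = _ ∨ - f y = _
    rcases hy with hy | hy
    · right; rw [hy]; ring
    · left; rw [hy]

/-- a vertex on a single level, the double levels at distance at most 7 -/
theorem SixAt.single7 {f : V → ZMod (2 * 6 + 3)} {j : ZMod (2 * 6 + 3)} (h : SixAt G f j 13)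
    {x : V} {s : ℕ} (hs : s ≤ 12) (hx : f x = j + s) :
    ∃ f' j' d, SixAt G f' j' d ∧ 1 ≤ d ∧ d ≤ 7 ∧ f' x = j' := by
  by_cases h6 : 6 ≤ s
  · exact ⟨f, j + s, 13 - s, h.rot hs, by omega, by omega, hx⟩
  · refine ⟨fun u => - f u, -(j + s), 14 - (13 - s), (h.rot hs).refl (by omega) (by omega),
      by omega, by omega, ?_⟩
    change - f x = _
    rw [hx]

/-- a vertex on a double level, seen from the antipodal vertex -/
theorem SixAt.anti {f : V → ZMod (2 * 6 + 3)} {j : ZMod (2 * 6 + 3)} (h : SixAt G f j 13)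
    {x : V} (hx : f x = j + 13 ∨ f x = j + 14) :
    ∃ f' j', SixAt G f' j' 7 ∧ f' x = j' + 7 := by
  rcases hx with hx | hx
  · refine ⟨f, j + (6 : ℕ), h.rot (by norm_num), ?_⟩
    rw [hx, Nat.cast_ofNat]
    ring
  · refine ⟨fun u => - f u, -(j + (6 : ℕ)), (h.rot (s := 6) (by norm_num)).refl (by norm_num)
      (by norm_num), ?_⟩
    change - f x = _
    rw [hx, Nat.cast_ofNat]
    linear_combination (-1 : ZMod (2 * 6 + 3)) * fifteen_eq

end

end Pool.Agent.Work.MP_92a29d_co
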