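import Pool.Agent.Work.MP_92a29d_co_h36.Assembly
import Pool.Agent.Work.MP_92a29d_co_h36.Excl
import Pool.Agent.Work.MP_92a29d_co_h62.Six
import Pool.Agent.Work.MP_92a29d_co_h62.M12
import Pool.Agent.Work.MP_92a29d_co_h62.F6222A1
import Pool.Agent.Work.MP_92a29d_co_h62.F6222A2
import Pool.Agent.Work.MP_92a29d_co_h62.F6222B
import Pool.Agent.Work.MP_92a29d_co_h62.F6222L
import Pool.Agent.Work.MP_92a29d_co_h62.F6222C
import Pool.Agent.Work.MP_92a29d_co_h62.F6222D
import Pool.Agent.Work.MP_92a29d_co_h62.F6222E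

/-!
(6,2,2,2): every covering gives a model of one of ten instances.
-/

namespace Pool.Agent.Work.MP_92a29d_co.Place

open SimpleGraph Finset Pool.Agent.Work.MP_92a29d_co_h45

section

variable {V : Type*} [Fintype V] [DecidableEq V] {G : Fin 4 → SimpleGraph V}

omit [Fintype V] [DecidableEq V] in
theorem cover_perm {m : Fin 4 → ℕ} (h : Cover V m G) (σ : Fin 4 ≃ Fin 4) :
    Cover V (fun i => m (σ i)) (fun i => G (σ i)) := by
  refine ⟨?_, fun i => h.girth (σ i)⟩
  intro u v huv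
  obtain ⟨i, hi⟩ := h.cov u v huv
  exact ⟨σ.symm i, by rw [σ.apply_symm_apply]; exact hi⟩

theorem tuple_6222 : Tuple4 6 2 2 2 :=
  ⟨by norm_num, by norm_num, by norm_num, by norm_num, by unfold Good3; omega⟩

omit [DecidableEq V] in
/-- a level with one vertex -/
theorem uniq_of_lsize {L : ℕ} {f : V → ZMod L} {j : ZMod L} (h : lsize f j = 1) {x u : V}
    (hx : f x = j) (hu : f u = j) : u = x := by
  classical
  rw [lsize_eq, Finset.card_eq_one] at h
  obtain ⟨a, ha⟩ := h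
  have h1 : x ∈ univ.filter (fun u => f u = j) := mem_filter.2 ⟨mem_univ _, hx⟩
  have h2 : u ∈ univ.filter (fun u => f u = j) := mem_filter.2 ⟨mem_univ _, hu⟩
  rw [ha, mem_singleton] at h1 h2
  rw [h1, h2]

omit [Fintype V] [DecidableEq V] in
theorem val_sub_eq_zero {L : ℕ} {f : V → ZMod L} {j : ZMod L} {u : V} :
    (f u - j).val = 0 ↔ f u = j := by
  rw [ZMod.val_eq_zero, sub_eq_zero]

omit [DecidableEq V] in
/-- the number of vertices with two digits is one -/
theorem ext_one {cd : List CD} {X0 X1 : V → ℕ} {d0 d1 : ℕ} {x : V}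
    (hx0 : (cdAt cd 0).d (X0 x) = d0) (hx1 : (cdAt cd 1).d (X1 x) = d1)
    (hu : ∀ u, (cdAt cd 0).d (X0 u) = d0 → (cdAt cd 1).d (X1 u) = d1 → u = x) :
    1 ≤ (Finset.univ.filter fun u =>
        ∀ y ∈ [((0 : ℕ), d0), ((1 : ℕ), d1)], (cdAt cd y.1).d (xs X0 X1 X1 y.1 u) = y.2).card ∧
      (Finset.univ.filter fun u =>
        ∀ y ∈ [((0 : ℕ), d0), ((1 : ℕ), d1)], (cdAt cd y.1).d (xs X0 X1 X1 y.1 u) = y.2).card
          ≤ 1 := by
  have : (Finset.univ.filter fun u =>
        ∀ y ∈ [((0 : ℕ), d0), ((1 : ℕ), d1)], (cdAt cd y.1).d (xs X0 X1 X1 y.1 u) = y.2) = {x} := by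
    ext u
    simp only [mem_filter, mem_univ, true_and, List.mem_cons, List.not_mem_nil, or_false,
      forall_eq_or_imp, forall_eq, mem_singleton]
    constructor
    · rintro ⟨h1, h2⟩
      exact hu u h1 h2
    · rintro rfl
      exact ⟨hx0, hx1⟩
  rw [this, Finset.card_singleton]
  exact ⟨le_rfl, le_rfl⟩

/-! ### the class which maps to the cycle of length 7 -/

section level

variable (hV : Fintype.card V = 17) (hcov : Cover V ![2, 6, 2, 2] G)
  (hα : ∀ i, AlphaEight (G i))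
  {f : V → ZMod (2 * 2 + 3)} (hf : CycHom (G 0) (2 * 2 + 3) f)
  {f1 : V → ZMod (2 * 6 + 3)} {j1 : ZMod (2 * 6 + 3)} {d : ℕ} (h1 : SixAt (G 1) f1 j1 d)

include hV hcov hα hf h1

theorem case_A1 {x : V} (hx : lsize f (f x) = 1) (hd1 : 1 ≤ d) (hd7 : d ≤ 7) (hx1 : f1 x = j1)
    (hU : ∀ M, ¬ IsModel f6222A1_I0 M) : False := by
  have hc0 : ClsOK (cdAt f6222A1_cd 0) (G 0) (fun u => (f u - f x).val) := by
    refine clsOK_level hf (f x) rfl rfl ?_
    intro a ha
    have h2 := lsize_bounds hV hf (hα 0) (f x + a)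
    rcases Nat.eq_zero_or_pos a with rfl | ha0
    · rw [Nat.cast_zero, add_zero, hx]
      exact ⟨le_rfl, le_rfl⟩
    · have : (cdAt f6222A1_cd 0).lo a = 1 ∧ (cdAt f6222A1_cd 0).hi a = 6 := by
        interval_cases a <;> exact ⟨rfl, rfl⟩
      omega
  have hc1 : ClsOK (cdAt f6222A1_cd 1) (G 1) (fun u => (f1 u - j1).val) := by
    refine clsOK_level h1.hom j1 rfl rfl ?_
    intro a ha
    rw [h1.size a ha]
    have h3 : (cdAt f6222A1_cd 1).lo a = 1 ∧
        (cdAt f6222A1_cd 1).hi a = if 1 ≤ a ∧ a ≤ 8 then 2 else 1 := by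
      clear h1 hx hd1 hd7 hx1 hU hc0
      revert a
      decide
    rw [h3.1, h3.2]
    unfold dbl
    by_cases h4 : a = d ∨ a = d + 1
    · rw [if_pos h4, if_pos (by omega)]
      omega
    · rw [if_neg h4]
      split <;> omega
  have hj1 : lsize f1 j1 = 1 := by
    have := h1.size 0 (by norm_num)
    rw [Nat.cast_zero, add_zero] at this
    rw [this]
    unfold dbl
    rw [if_neg (by omega)]
  have hconf := Conf.of_two (m := ![2, 6, 2, 2]) (rel := []) hcov hc0 hc1 (by simp)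
  have hcd : [cdAt f6222A1_cd 0, cdAt f6222A1_cd 1] = f6222A1_cd := rfl
  rw [hcd] at hconf
  have hdg : ∀ a < 15, (cdAt f6222A1_cd 1).d a = 0 → a = 0 := by decide
  obtain ⟨Is, hIs, I, hI, M, hM⟩ := Conf.exists_instE f6222A1_fam hV hconf hα (by
    intro y hy
    rw [List.mem_singleton] at hy
    subst hy
    refine ext_one (x := x) ?_ ?_ ?_
    · rw [sub_self, ZMod.val_zero]; rfl
    · rw [hx1, sub_self, ZMod.val_zero]; rfl
    · intro u _ hu
      exact uniq_of_lsize hj1 hx1 (val_sub_eq_zero.1 (hdg _ (ZMod.val_lt _) hu)))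
  rw [List.mem_singleton] at hIs
  subst hIs
  rw [List.mem_singleton] at hI
  subst hI
  exact hU M hM

theorem case_A2 {x : V} (hx : lsize f (f x) = 1) (hd : d = 7) (hx1 : f1 x = j1 + 7)
    (hU : ∀ M, ¬ IsModel f6222A2_I0 M) : False := by
  subst hd
  have hc0 : ClsOK (cdAt f6222A2_cd 0) (G 0) (fun u => (f u - f x).val) := by
    refine clsOK_level hf (f x) rfl rfl ?_
    intro a ha
    have h2 := lsize_bounds hV hf (hα 0) (f x + a)
    rcases Nat.eq_zero_or_pos a with rfl | ha0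
    · rw [Nat.cast_zero, add_zero, hx]
      exact ⟨le_rfl, le_rfl⟩
    · have : (cdAt f6222A2_cd 0).lo a = 1 ∧ (cdAt f6222A2_cd 0).hi a = 6 := by
        interval_cases a <;> exact ⟨rfl, rfl⟩
      omega
  have hc1 : ClsOK (cdAt f6222A2_cd 1) (G 1) (fun u => (f1 u - j1).val) := by
    refine clsOK_level h1.hom j1 rfl rfl ?_
    intro a ha
    rw [h1.size a ha]
    clear h1 hx hx1 hU hc0
    revert a
    decide
  have hrel : ∀ r ∈ [((0 : ℕ), (1 : ℕ), (7 : ℕ))], ∀ u,
      (cdAt [cdAt f6222A2_cd 0, cdAt f6222A2_cd 1] r.1).d (xs (fun u => (f u - f x).val)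
        (fun u => (f1 u - j1).val) (fun u => (f1 u - j1).val) r.1 u) = 0 →
      xs (fun u => (f u - f x).val) (fun u => (f1 u - j1).val) (fun u => (f1 u - j1).val)
        r.2.1 u = r.2.2 := by
    intro r hr u hu
    rw [List.mem_singleton] at hr
    subst hr
    have hdg : ∀ a < 7, (cdAt f6222A2_cd 0).d a = 0 → a = 0 := by decide
    have h3 : u = x := uniq_of_lsize hx rfl (val_sub_eq_zero.1 (hdg _ (ZMod.val_lt _) hu))
    subst h3
    change (f1 u - j1).val = 7
    rw [hx1, add_sub_cancel_left]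
    rfl
  have hconf := Conf.of_two (m := ![2, 6, 2, 2]) (rel := [(0, 1, 7)]) hcov hc0 hc1 hrel
  have hcd : [cdAt f6222A2_cd 0, cdAt f6222A2_cd 1] = f6222A2_cd := rfl
  rw [hcd] at hconf
  obtain ⟨Is, hIs, I, hI, M, hM⟩ := Conf.exists_inst f6222A2_fam hV hconf hα (by simp)
  rw [List.mem_singleton] at hIs
  subst hIs
  rw [List.mem_singleton] at hI
  subst hI
  exact hU M hM

theorem case_B {x : V} (hx : lsize f (f x) = 2) (hd3 : 3 ≤ d) (hd11 : d ≤ 11) (hx1 : f1 x = j1)
    (hU : ∀ M, ¬ IsModel f6222B_I0 M) : False := by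
  have hc0 : ClsOK (cdAt f6222B_cd 0) (G 0) (fun u => (f u - f x).val) := by
    refine clsOK_level hf (f x) rfl rfl ?_
    intro a ha
    have h2 := lsize_bounds hV hf (hα 0) (f x + a)
    rcases Nat.eq_zero_or_pos a with rfl | ha0
    · rw [Nat.cast_zero, add_zero, hx]
      exact ⟨le_rfl, le_rfl⟩
    · have : (cdAt f6222B_cd 0).lo a = 1 ∧ (cdAt f6222B_cd 0).hi a = 6 := by
        interval_cases a <;> exact ⟨rfl, rfl⟩
      omega
  have hc1 : ClsOK (cdAt f6222B_cd 1) (G 1) (fun u => (f1 u - j1).val) := by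
    refine clsOK_level h1.hom j1 rfl rfl ?_
    intro a ha
    rw [h1.size a ha]
    have h3 : (cdAt f6222B_cd 1).lo a = 1 ∧
        (cdAt f6222B_cd 1).hi a = if 3 ≤ a ∧ a ≤ 12 then 2 else 1 := by
      clear h1 hx hd3 hd11 hx1 hU hc0
      revert a
      decide
    rw [h3.1, h3.2]
    unfold dbl
    by_cases h4 : a = d ∨ a = d + 1
    · rw [if_pos h4, if_pos (by omega)]
      omega
    · rw [if_neg h4]
      split <;> omega
  have hj1 : lsize f1 j1 = 1 := by
    have := h1.size 0 (by norm_num)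
    rw [Nat.cast_zero, add_zero] at this
    rw [this]
    unfold dbl
    rw [if_neg (by omega)]
  have hconf := Conf.of_two (m := ![2, 6, 2, 2]) (rel := []) hcov hc0 hc1 (by simp)
  have hcd : [cdAt f6222B_cd 0, cdAt f6222B_cd 1] = f6222B_cd := rfl
  rw [hcd] at hconf
  have hdg : ∀ a < 15, (cdAt f6222B_cd 1).d a = 0 → a = 0 := by decide
  obtain ⟨Is, hIs, I, hI, M, hM⟩ := Conf.exists_inst f6222B_fam hV hconf hα (by
    intro y hy
    rw [List.mem_singleton] at hy
    subst hy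
    refine ext_one (x := x) ?_ ?_ ?_
    · rw [sub_self, ZMod.val_zero]; rfl
    · rw [hx1, sub_self, ZMod.val_zero]; rfl
    · intro u _ hu
      exact uniq_of_lsize hj1 hx1 (val_sub_eq_zero.1 (hdg _ (ZMod.val_lt _) hu)))
  rw [List.mem_singleton] at hIs
  subst hIs
  rw [List.mem_singleton] at hI
  subst hI
  exact hU M hM

theorem case_L {x : V} (hx : lsize f (f x) = 2) (h3 : ∀ j, lsize f j ≤ 3) (hd : d = 2)
    (hx1 : f1 x = j1) (hU0 : ∀ M, ¬ IsModel f6222L_I0 M)
    (hU1 : ∀ M, ¬ IsModel f6222L_I1 M) : False := by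
  subst hd
  have hc0 : ClsOK (cdAt f6222L_cd 0) (G 0) (fun u => (f u - f x).val) := by
    refine clsOK_level hf (f x) rfl rfl ?_
    intro a ha
    have h2 := lsize_bounds hV hf (hα 0) (f x + a)
    rcases Nat.eq_zero_or_pos a with rfl | ha0
    · rw [Nat.cast_zero, add_zero, hx]
      exact ⟨le_rfl, le_rfl⟩
    · have : (cdAt f6222L_cd 0).lo a = 1 ∧ (cdAt f6222L_cd 0).hi a = 3 := by
        interval_cases a <;> exact ⟨rfl, rfl⟩
      have := h3 (f x + a)
      omega
  have hc1 : ClsOK (cdAt f6222L_cd 1) (G 1) (fun u => (f1 u - j1).val) := by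
    refine clsOK_level h1.hom j1 rfl rfl ?_
    intro a ha
    rw [h1.size a ha]
    clear h1 hx hx1 hU0 hU1 hc0
    revert a
    decide
  have hj1 : lsize f1 j1 = 1 := by
    have := h1.size 0 (by norm_num)
    rw [Nat.cast_zero, add_zero] at this
    rw [this]
    rfl
  have hconf := Conf.of_two (m := ![2, 6, 2, 2]) (rel := []) hcov hc0 hc1 (by simp)
  have hcd : [cdAt f6222L_cd 0, cdAt f6222L_cd 1] = f6222L_cd := rfl
  rw [hcd] at hconf
  have hdg : ∀ a < 15, (cdAt f6222L_cd 1).d a = 0 → a = 0 := by decide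
  obtain ⟨Is, hIs, I, hI, M, hM⟩ := Conf.exists_inst f6222L_fam hV hconf hα (by
    intro y hy
    rw [List.mem_singleton] at hy
    subst hy
    refine ext_one (x := x) ?_ ?_ ?_
    · rw [sub_self, ZMod.val_zero]; rfl
    · rw [hx1, sub_self, ZMod.val_zero]; rfl
    · intro u _ hu
      exact uniq_of_lsize hj1 hx1 (val_sub_eq_zero.1 (hdg _ (ZMod.val_lt _) hu)))
  rw [List.mem_cons, List.mem_singleton] at hIs
  rcases hIs with rfl | rfl
  · rw [List.mem_singleton] at hI
    subst hI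
    exact hU0 M hM
  · rw [List.mem_singleton] at hI
    subst hI
    exact hU1 M hM

end level

end

end Pool.Agent.Work.MP_92a29d_co.Place
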