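import Pool.Agent.Work.MP_92a29d_co_h16.Profiles
import Pool.Agent.Work.MP_92a29d_co_h16.Alpha

/-!
Numbers of edges of the classes of a covering of the complete graph on 17 vertices.
-/

namespace Pool.Agent.Work.MP_92a29d_co

open SimpleGraph Finset

section

variable {V : Type*} [Fintype V]

/-- the number of edges -/
noncomputable def ecard (G : SimpleGraph V) : ℕ := by classical exact G.edgeFinset.card

theorem ecard_eq (G : SimpleGraph V) [Fintype G.edgeSet] : ecard G = G.edgeFinset.card := by
  classical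
  unfold ecard
  have e : ∀ i j : Fintype G.edgeSet,
      @SimpleGraph.edgeFinset V G i = @SimpleGraph.edgeFinset V G j := by
    intro i j
    rw [Subsingleton.elim i j]
  exact congrArg Finset.card (e _ _)

/-- number of vertices with label `a` -/
noncomputable def wt {L : Type*} (h : V → L) (a : L) : ℕ := by
  classical exact (univ.filter (fun u => h u = a)).card

theorem wt_eq {L : Type*} (h : V → L) (a : L) [DecidablePred fun u => h u = a] :
    wt h a = (univ.filter (fun u => h u = a)).card := by
  unfold wt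
  congr

theorem wt_lsize {L : ℕ} (f : V → ZMod L) (j : ZMod L) : wt f j = lsize f j := by
  classical
  rw [wt_eq, lsize_eq]

/-- A covering of the complete graph on 17 vertices has at least 136 edges. -/
theorem Cover.ecard_sum {m : Fin 4 → ℕ} {G : Fin 4 → SimpleGraph V} (h : Cover V m G)
    (hV : Fintype.card V = 17) : 136 ≤ ∑ i, ecard (G i) := by
  classical
  have h1 : (⊤ : SimpleGraph V).edgeFinset ⊆ univ.biUnion fun i => (G i).edgeFinset := by
    intro e he
    induction e using Sym2.ind with
    | _ u v =>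
      rw [mem_edgeFinset, mem_edgeSet, top_adj] at he
      obtain ⟨i, hi⟩ := h.cov u v he
      rw [mem_biUnion]
      exact ⟨i, mem_univ i, by rw [mem_edgeFinset, mem_edgeSet]; exact hi⟩
  have h2 := (Finset.card_le_card h1).trans Finset.card_biUnion_le
  rw [card_edgeFinset_top_eq_card_choose_two, hV] at h2
  have h3 : Nat.choose 17 2 = 136 := by decide
  rw [h3] at h2
  exact h2

/-- Edges are bounded by products of weights. -/
theorem ecard_le_rel {L : Type*} [DecidableEq L] (G : SimpleGraph V) (h : V → L)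
    (R : Finset (L × L)) (hR : ∀ u w, G.Adj u w → (h u, h w) ∈ R ∨ (h w, h u) ∈ R) :
    ecard G ≤ ∑ p ∈ R, wt h p.1 * wt h p.2 := by
  classical
  let P : Finset (V × V) := univ.filter fun q => (h q.1, h q.2) ∈ R
  have h1 : G.edgeFinset ⊆ P.image fun q => s(q.1, q.2) := by
    intro e he
    induction e using Sym2.ind with
    | _ u v =>
      rw [mem_edgeFinset, mem_edgeSet] at he
      rw [mem_image]
      rcases hR u v he with h2 | h2
      · exact ⟨(u, v), mem_filter.2 ⟨mem_univ _, h2⟩, rfl⟩
      · exact ⟨(v, u), mem_filter.2 ⟨mem_univ _, h2⟩, Sym2.eq_swap⟩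
  have h2 : ecard G ≤ P.card := by
    rw [ecard_eq]
    exact (Finset.card_le_card h1).trans Finset.card_image_le
  refine h2.trans (le_of_eq ?_)
  rw [Finset.card_eq_sum_card_fiberwise (s := P) (t := R) (f := fun q => (h q.1, h q.2))
    (fun q hq => by
      have := (mem_filter.1 (Finset.mem_coe.1 hq)).2
      exact Finset.mem_coe.2 this)]
  apply Finset.sum_congr rfl
  intro p hp
  rw [wt_eq, wt_eq, ← Finset.card_product]
  congr 1
  ext q
  simp only [P, mem_filter, mem_univ, true_and, mem_product, Prod.ext_iff]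
  constructor
  · rintro ⟨_, h3⟩; exact h3
  · rintro ⟨h3, h4⟩
    refine ⟨?_, h3, h4⟩
    rw [h3, h4]
    exact hp

/-- Edges of a graph which maps to a cycle. -/
theorem CycHom.ecard_le {L : ℕ} [NeZero L] {G : SimpleGraph V} {f : V → ZMod L}
    (hf : CycHom G L f) : ecard G ≤ ∑ j, lsize f j * lsize f (j + 1) := by
  classical
  have h1 := ecard_le_rel G f (univ.image fun j : ZMod L => (j, j + 1)) (fun u w huw => by
    rcases hf u w huw with e | e
    · left
      exact mem_image.2 ⟨f u, mem_univ _, by rw [e]⟩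
    · right
      refine mem_image.2 ⟨f w, mem_univ _, ?_⟩
      rw [e]
      simp)
  rw [Finset.sum_image (fun a _ b _ hab => congrArg Prod.fst hab)] at h1
  simp only [wt_lsize] at h1
  exact h1

/-- The class with `m = 6` has at most 20 edges. -/
theorem ecard_le_six (hV : Fintype.card V = 17) {G : SimpleGraph V} {f : V → ZMod (2 * 6 + 3)}
    (hf : CycHom G (2 * 6 + 3) f) (hα : AlphaEight G) : ecard G ≤ 20 := by
  classical
  obtain ⟨j, h1, h2, h3⟩ := profile_six hV hf hα
  refine hf.ecard_le.trans ?_
  rw [sum_zmod_range (fun k => lsize f k * lsize f (k + 1)) j]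
  change ∑ s ∈ range 15, lsize f (j + (s : ZMod (2 * 6 + 3))) *
    lsize f (j + (s : ZMod (2 * 6 + 3)) + 1) ≤ 20
  have h15 : (15 : ZMod (2 * 6 + 3)) = 0 := by decide
  have e : ∀ s : ℕ, s < 13 → lsize f (j + (s : ZMod (2 * 6 + 3))) = 1 := h1
  have key : ∀ s : ℕ, lsize f (j + (s : ZMod (2 * 6 + 3)) + 1) =
      lsize f (j + ((s + 1 : ℕ) : ZMod (2 * 6 + 3))) := by
    intro s
    congr 1
    push_cast
    ring
  have h15' : lsize f (j + ((15 : ℕ) : ZMod (2 * 6 + 3))) = 1 := by
    have := h1 0 (by norm_num)
    rw [← this, Nat.cast_ofNat, h15, Nat.cast_zero]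
  have h13 : lsize f (j + ((13 : ℕ) : ZMod (2 * 6 + 3))) = 2 := by
    rw [Nat.cast_ofNat]; exact h2
  have h14 : lsize f (j + ((14 : ℕ) : ZMod (2 * 6 + 3))) = 2 := by
    rw [Nat.cast_ofNat]; exact h3
  rw [Finset.sum_congr rfl (fun s _ => by rw [key s])]
  simp only [Finset.sum_range_succ, Finset.sum_range_zero, Nat.reduceAdd]
  rw [e 0 (by norm_num), e 1 (by norm_num), e 2 (by norm_num), e 3 (by norm_num),
    e 4 (by norm_num), e 5 (by norm_num), e 6 (by norm_num), e 7 (by norm_num),
    e 8 (by norm_num), e 9 (by norm_num), e 10 (by norm_num), e 11 (by norm_num),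
    e 12 (by norm_num), h13, h14, h15']

end

end Pool.Agent.Work.MP_92a29d_co
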