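import Pool.Agent.Work.MP_92a29d_co_h36.Excl

/-! Family of instances (generated). -/

namespace Pool.Agent.Work.MP_92a29d_co.Place

open Pool.Agent.Work.MP_92a29d_co_h45

def f6222E_S : Spec where
  K := 16
  cons := [(65535, 17, 17), (15, 2, 2), (240, 8, 8), (3840, 7, 7), (61440, 0, 0), (4369, 1, 1), (17476, 7, 8), (34952, 1, 1), (32, 0, 4), (64, 0, 4), (512, 0, 4), (1024, 0, 4), (1, 0, 0), (256, 0, 0), (8738, 8, 8), (8, 1, 1)]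
  data := [(0, 4722366482870718955585, 40242876197721568301482641440),
    (1, 19342813113834066795298881, 40242876197721568301482641440),
    (2, 68719476801, 40242876197721568301482641440),
    (3, 1237940039285384672945635393, 39004936158436188026583517088),
    (4, 1073745921, 39004936158436188026583517088),
    (5, 19342813114115541772013569, 39004936158436188026583517088),
    (6, 18014467228962817, 39004936158436188026583517088),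
    (7, 4398046515201, 39004936158436188026583484320),
    (8, 302231454903658367680513, 39004936158436188026583484320),
    (9, 19342814266755571402407937, 39004936158436188026583484320),
    (10, 73786976363557945345, 39004936158436188026583484320),
    (11, 4398046773249, 39004936158436188026581649312),
    (12, 1090519041, 39004936158436188025507907488),
    (13, 19342813113834066812076033, 38850193653525515491145516960),
    (14, 68736253953, 38850193653525515010109179808),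
    (15, 4398063288321, 38850193653525510612062668687)]
  HG := 41635559041750400751347075249
  G := 40242876197721568301482641440
  maps := [[0, 1, 2, 3, 4, 5, 6, 7, 8, 9, 10, 11, 12, 13, 14, 15]]
  mapsP := [[37778931862957161709568, 1180591620717411303424, 36893488147419103232, 1152921504606846976, 36028797018963968, 1125899906842624, 35184372088832, 1099511627776, 34359738368, 1073741824, 33554432, 1048576, 32768, 1024, 32, 1]]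
  places := [[2, 3, 4, 5, 5, 5, 5, 6, 6, 6, 9, 9, 9, 9, 10, 10, 10],
    [1, 3, 4, 5, 5, 5, 6, 6, 6, 6, 9, 9, 9, 9, 10, 10, 10],
    [1, 3, 4, 5, 5, 5, 5, 6, 6, 6, 9, 9, 9, 10, 10, 10, 10]]
  placesP := [3518440565408768, 3518441605595168, 4609156100161568]

def f6222E_T : Spec2 where
  S := f6222E_S
  B := 4
  k := 2
  pats := [([], 17, 17), ([(0, 0)], 2, 2), ([(0, 1)], 8, 8), ([(0, 2)], 7, 7), ([(0, 3)], 0, 0), ([(1, 0)], 1, 1), ([(1, 2)], 7, 8), ([(1, 3)], 1, 1), ([(0, 1), (1, 1)], 0, 4), ([(0, 1), (1, 2)], 0, 4), ([(0, 2), (1, 1)], 0, 4), ([(0, 2), (1, 2)], 0, 4), ([(1, 0), (0, 0)], 0, 0), ([(1, 0), (0, 2)], 0, 0), ([(1, 1)], 8, 8), ([(0, 0), (1, 3)], 1, 1)]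
  syms := [([0, 1], [0, 0])]

def f6222E_cd : List CD := [⟨.lev 6, [(2, 2), (2, 2), (1, 1), (1, 1), (1, 1), (1, 1), (1, 1), (1, 1), (1, 1), (1, 1), (1, 1), (1, 1), (1, 1), (1, 1), (1, 1)], [0, 1, 2, 1, 2, 1, 2, 1, 2, 1, 2, 1, 2, 1, 2]⟩,
  ⟨.tgt [2114, 133, 266, 532, 1064, 2128, 161, 322, 644, 1288, 2576, 1057], [(1, 1), (1, 1), (1, 3), (1, 4), (1, 3), (1, 1), (1, 1), (1, 1), (1, 4), (1, 3), (1, 4), (1, 1)], [3, 1, 2, 1, 2, 1, 0, 2, 1, 2, 1, 2]⟩]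

def f6222E_m : Fin 4 → ℕ := ![6, 2, 2, 2]

def f6222E_I0 : Inst := { kinds := [.lev 6, .tgt [2114, 133, 266, 532, 1064, 2128, 161, 322, 644, 1288, 2576, 1057], .expl 2, .expl 2], lv := [[[0], [0], [1], [1, 3, 5, 7, 9, 11, 13], [1, 3, 5, 7, 9, 11, 13], [1, 3, 5, 7, 9, 11, 13], [1, 3, 5, 7, 9, 11, 13], [1, 3, 5, 7, 9, 11, 13], [1, 3, 5, 7, 9, 11, 13], [1, 3, 5, 7, 9, 11, 13], [2, 4, 6, 8, 10, 12, 14], [2, 4, 6, 8, 10, 12, 14], [2, 4, 6, 8, 10, 12, 14], [2, 4, 6, 8, 10, 12, 14], [2, 4, 6, 8, 10, 12, 14], [2, 4, 6, 8, 10, 12, 14], [2, 4, 6, 8, 10, 12, 14]], [[2, 4, 7, 9, 11], [0], [6], [1, 3, 5, 8, 10], [1, 3, 5, 8, 10], [1, 3, 5, 8, 10], [1, 3, 5, 8, 10], [2, 4, 7, 9, 11], [2, 4, 7, 9, 11], [2, 4, 7, 9, 11], [1, 3, 5, 8, 10], [1, 3, 5, 8, 10], [1, 3, 5, 8, 10], [1, 3, 5, 8, 10], [2, 4, 7, 9, 11], [2, 4, 7, 9, 11], [2, 4, 7, 9, 11]]], ne := [(0, 1), (0, 2),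 (0, 3), (0, 4), (0, 5), (0, 6), (0, 7), (0, 8), (0, 9), (0, 10), (0, 11), (0, 12), (0, 13), (0, 14), (1, 0), (1, 1), (1, 2), (1, 3), (1, 4), (1, 5), (1, 6), (1, 7), (1, 8), (1, 9), (1, 10), (1, 11)], size := [(0, 1, 2), (0, 2, 1), (0, 3, 1), (0, 4, 1), (0, 5, 1), (0, 6, 1), (0, 7, 1), (0, 8, 1), (0, 9, 1), (0, 10, 1), (0, 11, 1), (0, 12, 1), (0, 13, 1), (0, 14, 1), (1, 1, 1), (1, 2, 3), (1, 3, 4), (1, 4, 3), (1, 5, 1), (1, 7, 1), (1, 8, 4), (1, 9, 3), (1, 10, 4), (1, 11, 1)], lex := [(3, 4), (4, 5), (5, 6), (7, 8), (8, 9), (10, 11), (11, 12), (12, 13), (14, 15), (15, 16)], five := [], forbid := [] }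

def f6222E_I1 : Inst := { kinds := [.lev 6, .tgt [2114, 133, 266, 532, 1064, 2128, 161, 322, 644, 1288, 2576, 1057], .expl 2, .expl 2], lv := [[[0], [0], [1], [1, 3, 5, 7, 9, 11, 13], [1, 3, 5, 7, 9, 11, 13], [1, 3, 5, 7, 9, 11, 13], [1, 3, 5, 7, 9, 11, 13], [1, 3, 5, 7, 9, 11, 13], [1, 3, 5, 7, 9, 11, 13], [1, 3, 5, 7, 9, 11, 13], [2, 4, 6, 8, 10, 12, 14], [2, 4, 6, 8, 10, 12, 14], [2, 4, 6, 8, 10, 12, 14], [2, 4, 6, 8, 10, 12, 14], [2, 4, 6, 8, 10, 12, 14], [2, 4, 6, 8, 10, 12, 14], [2, 4, 6, 8, 10, 12, 14]], [[1, 3, 5, 8, 10], [0], [6], [1, 3, 5, 8, 10], [1, 3, 5, 8, 10], [1, 3, 5, 8, 10], [2, 4, 7, 9, 11], [2, 4, 7, 9, 11], [2, 4, 7, 9, 11], [2, 4, 7, 9, 11], [1, 3, 5, 8, 10], [1, 3, 5, 8, 10], [1, 3, 5, 8, 10], [1, 3, 5, 8, 10], [2, 4, 7, 9, 11], [2, 4, 7, 9, 11], [2, 4, 7, 9, 11]]], ne := [(0, 1), (0, 2), (0, 3), (0, 4), (0, 5), (0, 6), (0, 7), (0,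 8), (0, 9), (0, 10), (0, 11), (0, 12), (0, 13), (0, 14), (1, 0), (1, 1), (1, 2), (1, 3), (1, 4), (1, 5), (1, 6), (1, 7), (1, 8), (1, 9), (1, 10), (1, 11)], size := [(0, 1, 2), (0, 2, 1), (0, 3, 1), (0, 4, 1), (0, 5, 1), (0, 6, 1), (0, 7, 1), (0, 8, 1), (0, 9, 1), (0, 10, 1), (0, 11, 1), (0, 12, 1), (0, 13, 1), (0, 14, 1), (1, 1, 1), (1, 2, 3), (1, 3, 4), (1, 4, 3), (1, 5, 1), (1, 7, 1), (1, 8, 4), (1, 9, 3), (1, 10, 4), (1, 11, 1)], lex := [(3, 4), (4, 5), (6, 7), (7, 8), (8, 9), (10, 11), (11, 12), (12, 13), (14, 15), (15, 16)], five := [], forbid := [] }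

def f6222E_I2 : Inst := { kinds := [.lev 6, .tgt [2114, 133, 266, 532, 1064, 2128, 161, 322, 644, 1288, 2576, 1057], .expl 2, .expl 2], lv := [[[0], [0], [1], [1, 3, 5, 7, 9, 11, 13], [1, 3, 5, 7, 9, 11, 13], [1, 3, 5, 7, 9, 11, 13], [1, 3, 5, 7, 9, 11, 13], [1, 3, 5, 7, 9, 11, 13], [1, 3, 5, 7, 9, 11, 13], [1, 3, 5, 7, 9, 11, 13], [2, 4, 6, 8, 10, 12, 14], [2, 4, 6, 8, 10, 12, 14], [2, 4, 6, 8, 10, 12, 14], [2, 4, 6, 8, 10, 12, 14], [2, 4, 6, 8, 10, 12, 14], [2, 4, 6, 8, 10, 12, 14], [2, 4, 6, 8, 10, 12, 14]], [[1, 3, 5, 8, 10], [0], [6], [1, 3, 5, 8, 10], [1, 3, 5, 8, 10], [1, 3, 5, 8, 10], [1, 3, 5, 8, 10], [2, 4, 7, 9, 11], [2, 4, 7, 9, 11], [2, 4, 7, 9, 11], [1, 3, 5, 8, 10], [1, 3, 5, 8, 10], [1, 3, 5, 8, 10], [2, 4, 7, 9, 11], [2, 4, 7, 9, 11], [2, 4, 7, 9, 11], [2, 4, 7, 9, 11]]], ne := [(0, 1), (0, 2), (0, 3), (0, 4), (0, 5), (0, 6), (0, 7), (0,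 8), (0, 9), (0, 10), (0, 11), (0, 12), (0, 13), (0, 14), (1, 0), (1, 1), (1, 2), (1, 3), (1, 4), (1, 5), (1, 6), (1, 7), (1, 8), (1, 9), (1, 10), (1, 11)], size := [(0, 1, 2), (0, 2, 1), (0, 3, 1), (0, 4, 1), (0, 5, 1), (0, 6, 1), (0, 7, 1), (0, 8, 1), (0, 9, 1), (0, 10, 1), (0, 11, 1), (0, 12, 1), (0, 13, 1), (0, 14, 1), (1, 1, 1), (1, 2, 3), (1, 3, 4), (1, 4, 3), (1, 5, 1), (1, 7, 1), (1, 8, 4), (1, 9, 3), (1, 10, 4), (1, 11, 1)], lex := [(3, 4), (4, 5), (5, 6), (7, 8), (8, 9), (10, 11), (11, 12), (13, 14), (14, 15), (15, 16)], five := [], forbid := [] }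

theorem f6222E_fam : famB f6222E_T f6222E_cd f6222E_m [(1, 0, 1)] [([(1, 1)], 8, 8), ([(0, 0), (1, 3)], 1, 1)] [[f6222E_I0], [f6222E_I1], [f6222E_I2]] = true := by decide +kernel

end Pool.Agent.Work.MP_92a29d_co.Place
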