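import Pool.Agent.Work.MP_92a29d_co_h62.Cases

/-!
(6,2,2,2): a class which maps to the cycle of length 7.
-/

namespace Pool.Agent.Work.MP_92a29d_co.Place

open SimpleGraph Finset Pool.Agent.Work.MP_92a29d_co_h45

section

variable {V : Type*} [Fintype V] [DecidableEq V] {G : Fin 4 → SimpleGraph V}

omit [DecidableEq V] in
theorem exists_of_lsize {L : ℕ} {f : V → ZMod L} {j : ZMod L} (h : 1 ≤ lsize f j) :
    ∃ x, f x = j := by
  classical
  rw [lsize_eq] at h
  obtain ⟨x, hx⟩ := Finset.card_pos.1 (lt_of_lt_of_le Nat.zero_lt_one h)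
  exact ⟨x, (mem_filter.1 hx).2⟩

/-- the vertices on levels with two vertices -/
noncomputable def S2 (f : V → ZMod (2 * 2 + 3)) : Finset V :=
  univ.filter fun u => lsize f (f u) = 2

theorem card_S2 (f : V → ZMod (2 * 2 + 3)) :
    (S2 f).card = ∑ i ∈ range 7, if lsize f ((i : ℕ) : ZMod (2 * 2 + 3)) = 2 then 2 else 0 := by
  classical
  have h1 := Finset.card_eq_sum_card_fiberwise (s := S2 f)
    (t := (univ : Finset (ZMod (2 * 2 + 3)))) (f := f) (fun _ _ => mem_coe.2 (mem_univ _))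
  rw [h1, sum_zmod_range _ 0]
  apply Finset.sum_congr rfl
  intro i _
  rw [zero_add]
  unfold S2
  rw [Finset.filter_filter]
  by_cases h2 : lsize f ((i : ℕ) : ZMod (2 * 2 + 3)) = 2
  · rw [if_pos h2]
    refine Eq.trans ?_ h2
    rw [lsize_eq]
    congr 1
    apply Finset.filter_congr
    intro u _
    constructor
    · rintro ⟨_, h3⟩; exact h3
    · intro h3
      refine ⟨?_, h3⟩
      rw [h3]
      exact h2
  · rw [if_neg h2, Finset.card_eq_zero, Finset.filter_eq_empty_iff]
    rintro u _ ⟨h3, h4⟩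
    rw [h4] at h3
    exact h2 h3

theorem ite_two (n : ℕ) (h : 2 ≤ n) : 6 ≤ (if n = 2 then 2 else 0) + 2 * n ∧
    (4 ≤ n → 8 ≤ (if n = 2 then 2 else 0) + 2 * n) := by
  split <;> omega

theorem num7 (n : ℕ → ℕ) (h2 : ∀ i, 2 ≤ n i) (h : ∑ i ∈ range 7, n i = 17) :
    8 ≤ ∑ i ∈ range 7, (if n i = 2 then 2 else 0) ∧
      ((∑ i ∈ range 7, (if n i = 2 then 2 else 0)) ≤ 8 → ∀ i < 7, n i ≤ 3) := by
  have k0 := ite_two _ (h2 0)
  have k1 := ite_two _ (h2 1)
  have k2 := ite_two _ (h2 2)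
  have k3 := ite_two _ (h2 3)
  have k4 := ite_two _ (h2 4)
  have k5 := ite_two _ (h2 5)
  have k6 := ite_two _ (h2 6)
  simp only [Finset.sum_range_succ, Finset.sum_range_zero, zero_add] at h ⊢
  generalize (if n 0 = 2 then 2 else 0) = c0 at *
  generalize (if n 1 = 2 then 2 else 0) = c1 at *
  generalize (if n 2 = 2 then 2 else 0) = c2 at *
  generalize (if n 3 = 2 then 2 else 0) = c3 at *
  generalize (if n 4 = 2 then 2 else 0) = c4 at *
  generalize (if n 5 = 2 then 2 else 0) = c5 at *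
  generalize (if n 6 = 2 then 2 else 0) = c6 at *
  refine ⟨by omega, ?_⟩
  intro h8 i hi
  by_contra hcon
  interval_cases i <;> omega

/-- sizes at least two -/
theorem S2_big (hV : Fintype.card V = 17) {f : V → ZMod (2 * 2 + 3)} (h2 : ∀ j, 2 ≤ lsize f j) :
    8 ≤ (S2 f).card ∧ ((S2 f).card ≤ 8 → ∀ j, lsize f j ≤ 3) := by
  have h3 := sum_lsize f
  rw [hV, sum_zmod_range _ 0] at h3
  rw [card_S2]
  change ∑ s ∈ range 7, lsize f (0 + ((s : ℕ) : ZMod (2 * 2 + 3))) = 17 at h3
  simp only [zero_add] at h3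
  obtain ⟨h4, h5⟩ := num7 (fun i => lsize f ((i : ℕ) : ZMod (2 * 2 + 3))) (fun i => h2 _) h3
  refine ⟨h4, fun h8 j => ?_⟩
  have := h5 h8 j.val (ZMod.val_lt j)
  simp only [ZMod.natCast_zmod_val] at this
  exact this

/-- the vertices near the double levels -/
def closeS (f1 : V → ZMod (2 * 6 + 3)) (j : ZMod (2 * 6 + 3)) : Finset V :=
  univ.filter fun u => (f1 u - j).val ∈ ({0, 1, 11, 12, 13, 14} : Finset ℕ)

theorem card_closeS {H : SimpleGraph V} {f1 : V → ZMod (2 * 6 + 3)} {j : ZMod (2 * 6 + 3)}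
    (h : SixAt H f1 j 13) : (closeS f1 j).card = 8 := by
  classical
  have h1 := Finset.card_eq_sum_card_fiberwise (s := closeS f1 j)
    (t := ({0, 1, 11, 12, 13, 14} : Finset ℕ)) (f := fun u => (f1 u - j).val)
    (fun u hu => by
      have := (mem_filter.1 (mem_coe.1 hu)).2
      exact mem_coe.2 this)
  rw [h1]
  have h2 : ∀ k ∈ ({0, 1, 11, 12, 13, 14} : Finset ℕ),
      ((closeS f1 j).filter fun u => (f1 u - j).val = k).card = dbl 13 k := by
    intro k hk
    have hk15 : k < 15 := by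
      simp only [mem_insert, mem_singleton] at hk
      omega
    rw [← h.size k hk15, ← card_level f1 j (show k < 2 * 6 + 3 from hk15)]
    congr 1
    unfold closeS
    rw [Finset.filter_filter]
    apply Finset.filter_congr
    intro u _
    constructor
    · rintro ⟨_, h3⟩; exact h3
    · intro h3
      exact ⟨by rw [h3]; exact hk, h3⟩
  rw [Finset.sum_congr rfl h2]
  decide

theorem level_case (hV : Fintype.card V = 17) (hcov : Cover V ![2, 6, 2, 2] G)
    (hα : ∀ i, AlphaEight (G i)) {f : V → ZMod (2 * 2 + 3)} (hf : CycHom (G 0) (2 * 2 + 3) f)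
    {f1 : V → ZMod (2 * 6 + 3)} {j : ZMod (2 * 6 + 3)} (h : SixAt (G 1) f1 j 13)
    (hA1 : ∀ M, ¬ IsModel f6222A1_I0 M) (hA2 : ∀ M, ¬ IsModel f6222A2_I0 M)
    (hB : ∀ M, ¬ IsModel f6222B_I0 M) (hL0 : ∀ M, ¬ IsModel f6222L_I0 M)
    (hL1 : ∀ M, ¬ IsModel f6222L_I1 M) : False := by
  by_cases hs : ∃ x, lsize f (f x) = 1
  · obtain ⟨x, hx⟩ := hs
    obtain ⟨s, hs15, hxs⟩ := exists_pos f1 j x
    by_cases hs12 : s ≤ 12
    · obtain ⟨f', j', d, h', hd1, hd7, hx'⟩ := h.single7 hs12 hxs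
      exact case_A1 hV hcov hα hf h' hx hd1 hd7 hx' hA1
    · obtain ⟨f', j', h', hx'⟩ := h.anti (x := x) (by
        have : s = 13 ∨ s = 14 := by omega
        rcases this with rfl | rfl
        · left; rw [hxs, Nat.cast_ofNat]
        · right; rw [hxs, Nat.cast_ofNat])
      exact case_A2 hV hcov hα hf h' hx rfl hx' hA2
  · push Not at hs
    have h2 : ∀ i, 2 ≤ lsize f i := by
      intro i
      have h3 := (lsize_bounds hV hf (hα 0) i).1
      obtain ⟨x, hx⟩ := exists_of_lsize h3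
      have h4 := hs x
      rw [hx] at h4
      omega
    obtain ⟨h3, h4⟩ := S2_big hV h2
    have hc := card_closeS h
    by_cases hx : ∃ x ∈ S2 f, x ∉ closeS f1 j
    · obtain ⟨x, hx1, hx2⟩ := hx
      obtain ⟨s, hs15, hxs⟩ := exists_pos f1 j x
      have hv : (f1 x - j).val = s := by
        rw [hxs, add_sub_cancel_left]
        exact ZMod.val_cast_of_lt hs15
      have h5 : s ∉ ({0, 1, 11, 12, 13, 14} : Finset ℕ) := by
        intro h5
        apply hx2
        exact mem_filter.2 ⟨mem_univ _, by rw [hv]; exact h5⟩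
      simp only [mem_insert, mem_singleton] at h5
      exact case_B hV hcov hα hf (h.rot (s := s) (by omega)) (mem_filter.1 hx1).2 (by omega)
        (by omega) hxs hB
    · push Not at hx
      have h5 : S2 f = closeS f1 j := by
        apply Finset.eq_of_subset_of_card_le hx
        omega
      obtain ⟨x, hx'⟩ : ∃ x, f1 x = j + ((11 : ℕ) : ZMod (2 * 6 + 3)) := by
        apply exists_of_lsize
        rw [h.size 11 (by norm_num)]
        decide
      have hv : (f1 x - j).val = 11 := by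
        rw [hx', add_sub_cancel_left]
        exact ZMod.val_cast_of_lt (by norm_num)
      have hx2 : x ∈ S2 f := by
        rw [h5]
        exact mem_filter.2 ⟨mem_univ _, by rw [hv]; decide⟩
      exact case_L hV hcov hα hf (h.rot (s := 11) (by norm_num)) (mem_filter.1 hx2).2
        (h4 (by rw [h5, hc])) rfl hx' hL0 hL1

end

end Pool.Agent.Work.MP_92a29d_co.Place
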