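import Pool.Agent.Work.MP_92a29d_co_h62.Cases

/-!
(6,2,2,2): a class which maps to the Möbius ladder with 12 vertices.
-/

namespace Pool.Agent.Work.MP_92a29d_co.Place

open SimpleGraph Finset Pool.Agent.Work.MP_92a29d_co_h45

section

variable {V : Type*} [Fintype V] [DecidableEq V]

/-- adjacency masks of the Möbius ladder -/
def nb12 : List ℕ := [2114, 133, 266, 532, 1064, 2128, 161, 322, 644, 1288, 2576, 1057]

theorem nb12_adj : ∀ x y : ZMod 12, (y = x + 1 ∨ y = x - 1 ∨ y = x + 6) →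
    (nb12.getD x.val 0).testBit y.val = true := by
  decide +kernel

omit [DecidableEq V] in
theorem card_lab12 (h : V → ZMod 12) {a : ℕ} (ha : a < 12) :
    (univ.filter fun u => (h u).val = a).card = wt h (a : ZMod 12) := by
  rw [wt_eq]
  congr 1
  apply Finset.filter_congr
  intro u _
  constructor
  · intro h1; rw [← h1, ZMod.natCast_zmod_val]
  · intro h1; rw [h1]; exact ZMod.val_cast_of_lt ha

omit [DecidableEq V] in
theorem clsOK_moebius {G : SimpleGraph V} {h : V → ZMod 12} (hh : MHom G h)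
    (hw : ∀ l : ℕ, l < 12 → 1 ≤ wt h (l : ZMod 12) ∧ wt h (l : ZMod 12) ≤ szm.getD l 0) {c : CD}
    (hk : c.kind = .tgt nb12)
    (hbd : c.bd = [(1, 1), (1, 1), (1, 3), (1, 4), (1, 3), (1, 1), (1, 1), (1, 1), (1, 4), (1, 3),
      (1, 4), (1, 1)]) : ClsOK c G (fun u => (h u).val) := by
  have hn : c.n = 12 := by unfold CD.n; rw [hbd]; rfl
  refine ⟨?_, ?_, ?_⟩
  · intro u w huw
    rw [hk]
    exact nb12_adj _ _ (hh u w huw)
  · intro u
    rw [hn]
    exact ZMod.val_lt _
  · intro a ha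
    rw [hn] at ha
    rw [card_lab12 h ha]
    have h1 : c.lo a = 1 ∧ c.hi a = szm.getD a 0 := by
      unfold CD.lo CD.hi
      rw [hbd]
      revert a
      decide
    rw [h1.1, h1.2]
    exact hw a ha

omit [DecidableEq V] in
/-- the number of vertices on the labels with digit 1 -/
theorem sum_digit {h : V → ZMod 12} {c : CD} (hn : c.n = 12)
    (hdg : ∀ a < 12, Nat.beq (c.d a) 1 = (a == 1 || a == 3 || a == 5 || a == 8 || a == 10))
    (hs : (([1, 3, 5, 8, 10] : List ℕ).map fun (l : ℕ) => wt h (l : ZMod 12)).sum = 8) :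
    (∑ a ∈ range c.n, if Nat.beq (c.d a) 1 = true then
        (univ.filter fun u => (h u).val = a).card else 0) = 8 := by
  rw [hn, ← hs]
  have : ∀ a ∈ range 12, (if Nat.beq (c.d a) 1 = true then
        (univ.filter fun u => (h u).val = a).card else 0) =
      if (a == 1 || a == 3 || a == 5 || a == 8 || a == 10) = true then
        wt h (a : ZMod 12) else 0 := by
    intro a ha
    rw [mem_range] at ha
    rw [hdg a ha, card_lab12 h ha]
  rw [Finset.sum_congr rfl this]
  simp [Finset.sum_range_succ]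
  ring

variable {G : Fin 4 → SimpleGraph V} (hV : Fintype.card V = 17) (hcov : Cover V ![6, 2, 2, 2] G)
  (hα : ∀ i, AlphaEight (G i))
  {h : V → ZMod 12} (hh : MHom (G 1) h)
  (hw : ∀ l : ℕ, l < 12 → 1 ≤ wt h (l : ZMod 12) ∧ wt h (l : ZMod 12) ≤ szm.getD l 0)
  (hs : (([1, 3, 5, 8, 10] : List ℕ).map fun (l : ℕ) => wt h (l : ZMod 12)).sum = 8)
  {f1 : V → ZMod (2 * 6 + 3)} {j1 : ZMod (2 * 6 + 3)}

include hV hcov hα hh hw hs

theorem case_C {d : ℕ} (h1 : SixAt (G 0) f1 j1 d) {x : V} (hx : h x = 0) (hd1 : 1 ≤ d)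
    (hx1 : f1 x = j1) (hU : ∀ M, ¬ IsModel f6222C_I0 M) : False := by
  have hc0 : ClsOK (cdAt f6222C_cd 0) (G 0) (fun u => (f1 u - j1).val) := by
    refine clsOK_level h1.hom j1 rfl rfl ?_
    intro a ha
    rw [h1.size a ha]
    have h3 : (cdAt f6222C_cd 0).lo a = 1 ∧
        (cdAt f6222C_cd 0).hi a = if a = 0 then 1 else 2 := by
      clear h1
      revert a
      decide
    rw [h3.1, h3.2]
    unfold dbl
    by_cases h4 : a = d ∨ a = d + 1
    · rw [if_pos h4, if_neg (by omega)]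
      omega
    · rw [if_neg h4]
      split <;> omega
  have hc1 : ClsOK (cdAt f6222C_cd 1) (G 1) (fun u => (h u).val) :=
    clsOK_moebius hh hw rfl rfl
  have hj1 : lsize f1 j1 = 1 := by
    have := h1.size 0 (by norm_num)
    rw [Nat.cast_zero, add_zero] at this
    rw [this]
    unfold dbl
    rw [if_neg (by omega)]
  have hdg : ∀ a < 15, (cdAt f6222C_cd 0).d a = 0 → a = 0 := by decide
  have hrel : ∀ r ∈ [((0 : ℕ), (1 : ℕ), (0 : ℕ))], ∀ u,
      (cdAt [cdAt f6222C_cd 0, cdAt f6222C_cd 1] r.1).d (xs (fun u => (f1 u - j1).val)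
        (fun u => (h u).val) (fun u => (h u).val) r.1 u) = 0 →
      xs (fun u => (f1 u - j1).val) (fun u => (h u).val) (fun u => (h u).val)
        r.2.1 u = r.2.2 := by
    intro r hr u hu
    rw [List.mem_singleton] at hr
    subst hr
    have h3 : u = x := uniq_of_lsize hj1 hx1 (val_sub_eq_zero.1 (hdg _ (ZMod.val_lt _) hu))
    subst h3
    change (h u).val = 0
    rw [hx]
    rfl
  have hconf := Conf.of_two (m := ![6, 2, 2, 2]) (rel := [(0, 1, 0)]) hcov hc0 hc1 hrel
  have hcd : [cdAt f6222C_cd 0, cdAt f6222C_cd 1] = f6222C_cd := rfl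
  rw [hcd] at hconf
  have hcard := hconf.card_digit (i := 1) (by decide) 1
  have hsum := sum_digit (h := h) (c := cdAt f6222C_cd 1) rfl (by decide) hs
  obtain ⟨Is, hIs, I, hI, M, hM⟩ := Conf.exists_inst f6222C_fam hV hconf hα (by
    intro y hy
    rw [List.mem_singleton] at hy
    subst hy
    have e : (Finset.univ.filter fun u =>
        ∀ y ∈ [((1 : ℕ), (1 : ℕ))], (cdAt f6222C_cd y.1).d (xs (fun u => (f1 u - j1).val)
        (fun u => (h u).val) (fun u => (h u).val) y.1 u) = y.2) =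
        (univ.filter fun u => (cdAt f6222C_cd 1).d ((h u).val) = 1) := by
      apply Finset.filter_congr
      intro u _
      simp only [List.mem_singleton, forall_eq]
      rfl
    rw [e]
    have e2 : (univ.filter fun u => (cdAt f6222C_cd 1).d ((h u).val) = 1).card = 8 :=
      hcard.trans hsum
    rw [e2]
    exact ⟨le_rfl, le_rfl⟩)
  rw [List.mem_singleton] at hIs
  subst hIs
  rw [List.mem_singleton] at hI
  subst hI
  exact hU M hM

omit [DecidableEq V] hV hcov hα hh hw hs in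
theorem uniq_of_wt {h : V → ZMod 12} {a : ZMod 12} (h1 : wt h a = 1) {x u : V}
    (hx : h x = a) (hu : h u = a) : u = x := by
  classical
  rw [wt_eq, Finset.card_eq_one] at h1
  obtain ⟨b, hb⟩ := h1
  have h2 : x ∈ univ.filter (fun u => h u = a) := mem_filter.2 ⟨mem_univ _, hx⟩
  have h3 : u ∈ univ.filter (fun u => h u = a) := mem_filter.2 ⟨mem_univ _, hu⟩
  rw [hb, mem_singleton] at h2 h3
  rw [h2, h3]

omit hV hcov hα hh hw hs in
theorem val_six : ∀ {z : ZMod 12}, z.val = 6 → z = 6 := by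
  intro z hz
  rw [← ZMod.natCast_zmod_val z, hz]
  rfl

theorem case_D (h1 : SixD (G 0) f1 j1) {x y : V} (hx : h x = 0) (hy : h y = 6)
    (hx1 : f1 x = j1) (hy1 : f1 y = j1) (hU0 : ∀ M, ¬ IsModel f6222D_I0 M) : False := by
  have hc0 : ClsOK (cdAt f6222D_cd 0) (G 0) (fun u => (f1 u - j1).val) := by
    refine clsOK_level h1.hom j1 rfl rfl ?_
    intro a ha
    rw [h1.size a ha]
    clear h1
    revert a
    decide
  have hc1 : ClsOK (cdAt f6222D_cd 1) (G 1) (fun u => (h u).val) :=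
    clsOK_moebius hh hw rfl rfl
  have hw0 : wt h 0 = 1 := by
    have h2 : 1 ≤ wt h ((0 : ℕ) : ZMod 12) ∧ wt h ((0 : ℕ) : ZMod 12) ≤ 1 := hw 0 (by norm_num)
    rw [Nat.cast_zero] at h2
    omega
  have hw6 : wt h 6 = 1 := by
    have h2 : 1 ≤ wt h ((6 : ℕ) : ZMod 12) ∧ wt h ((6 : ℕ) : ZMod 12) ≤ 1 := hw 6 (by norm_num)
    rw [Nat.cast_ofNat] at h2
    omega
  have hdg0 : ∀ a < 12, (cdAt f6222D_cd 1).d a = 0 → a = 6 := by decide
  have hdg3 : ∀ a < 12, (cdAt f6222D_cd 1).d a = 3 → a = 0 := by decide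
  have hrel : ∀ r ∈ [((1 : ℕ), (0 : ℕ), (0 : ℕ))], ∀ u,
      (cdAt [cdAt f6222D_cd 0, cdAt f6222D_cd 1] r.1).d (xs (fun u => (f1 u - j1).val)
        (fun u => (h u).val) (fun u => (h u).val) r.1 u) = 0 →
      xs (fun u => (f1 u - j1).val) (fun u => (h u).val) (fun u => (h u).val)
        r.2.1 u = r.2.2 := by
    intro r hr u hu
    rw [List.mem_singleton] at hr
    subst hr
    have h3 : u = y := uniq_of_wt hw6 hy (val_six (hdg0 _ (ZMod.val_lt _) hu))
    subst h3
    change (f1 u - j1).val = 0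
    rw [hy1, sub_self, ZMod.val_zero]
  have hconf := Conf.of_two (m := ![6, 2, 2, 2]) (rel := [(1, 0, 0)]) hcov hc0 hc1 hrel
  have hcd : [cdAt f6222D_cd 0, cdAt f6222D_cd 1] = f6222D_cd := rfl
  rw [hcd] at hconf
  have hcard := hconf.card_digit (i := 1) (by decide) 1
  have hsum := sum_digit (h := h) (c := cdAt f6222D_cd 1) rfl (by decide) hs
  obtain ⟨Is, hIs, I, hI, M, hM⟩ := Conf.exists_inst f6222D_fam hV hconf hα (by
    intro z hz
    rw [List.mem_cons, List.mem_singleton] at hz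
    rcases hz with rfl | rfl
    · have e : (Finset.univ.filter fun u =>
          ∀ y ∈ [((1 : ℕ), (1 : ℕ))], (cdAt f6222D_cd y.1).d (xs (fun u => (f1 u - j1).val)
          (fun u => (h u).val) (fun u => (h u).val) y.1 u) = y.2) =
          (univ.filter fun u => (cdAt f6222D_cd 1).d ((h u).val) = 1) := by
        apply Finset.filter_congr
        intro u _
        simp only [List.mem_singleton, forall_eq]
        rfl
      rw [e]
      have e2 : (univ.filter fun u => (cdAt f6222D_cd 1).d ((h u).val) = 1).card = 8 :=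
        hcard.trans hsum
      rw [e2]
      exact ⟨le_rfl, le_rfl⟩
    · refine ext_one (x := x) ?_ ?_ ?_
      · rw [hx1, sub_self, ZMod.val_zero]; rfl
      · rw [hx]; rfl
      · intro u _ hu
        exact uniq_of_wt hw0 hx ((ZMod.val_eq_zero _).1 (hdg3 _ (ZMod.val_lt _) hu)))
  rw [List.mem_singleton] at hIs
  subst hIs
  rw [List.mem_singleton] at hI
  subst hI
  exact hU0 M hM

theorem case_E (h1 : SixD (G 0) f1 j1) {x y : V} (hx : h x = 0) (hy : h y = 6)
    (hx1 : f1 x = j1) (hy1 : f1 y = j1 + 1) (hU0 : ∀ M, ¬ IsModel f6222E_I0 M) (hU1 : ∀ M, ¬ IsModel f6222E_I1 M) (hU2 : ∀ M, ¬ IsModel f6222E_I2 M) : False := by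
  have hc0 : ClsOK (cdAt f6222E_cd 0) (G 0) (fun u => (f1 u - j1).val) := by
    refine clsOK_level h1.hom j1 rfl rfl ?_
    intro a ha
    rw [h1.size a ha]
    clear h1
    revert a
    decide
  have hc1 : ClsOK (cdAt f6222E_cd 1) (G 1) (fun u => (h u).val) :=
    clsOK_moebius hh hw rfl rfl
  have hw0 : wt h 0 = 1 := by
    have h2 : 1 ≤ wt h ((0 : ℕ) : ZMod 12) ∧ wt h ((0 : ℕ) : ZMod 12) ≤ 1 := hw 0 (by norm_num)
    rw [Nat.cast_zero] at h2
    omega
  have hw6 : wt h 6 = 1 := by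
    have h2 : 1 ≤ wt h ((6 : ℕ) : ZMod 12) ∧ wt h ((6 : ℕ) : ZMod 12) ≤ 1 := hw 6 (by norm_num)
    rw [Nat.cast_ofNat] at h2
    omega
  have hdg0 : ∀ a < 12, (cdAt f6222E_cd 1).d a = 0 → a = 6 := by decide
  have hdg3 : ∀ a < 12, (cdAt f6222E_cd 1).d a = 3 → a = 0 := by decide
  have hrel : ∀ r ∈ [((1 : ℕ), (0 : ℕ), (1 : ℕ))], ∀ u,
      (cdAt [cdAt f6222E_cd 0, cdAt f6222E_cd 1] r.1).d (xs (fun u => (f1 u - j1).val)
        (fun u => (h u).val) (fun u => (h u).val) r.1 u) = 0 →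
      xs (fun u => (f1 u - j1).val) (fun u => (h u).val) (fun u => (h u).val)
        r.2.1 u = r.2.2 := by
    intro r hr u hu
    rw [List.mem_singleton] at hr
    subst hr
    have h3 : u = y := uniq_of_wt hw6 hy (val_six (hdg0 _ (ZMod.val_lt _) hu))
    subst h3
    change (f1 u - j1).val = 1
    rw [hy1, add_sub_cancel_left]
    rfl
  have hconf := Conf.of_two (m := ![6, 2, 2, 2]) (rel := [(1, 0, 1)]) hcov hc0 hc1 hrel
  have hcd : [cdAt f6222E_cd 0, cdAt f6222E_cd 1] = f6222E_cd := rfl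
  rw [hcd] at hconf
  have hcard := hconf.card_digit (i := 1) (by decide) 1
  have hsum := sum_digit (h := h) (c := cdAt f6222E_cd 1) rfl (by decide) hs
  obtain ⟨Is, hIs, I, hI, M, hM⟩ := Conf.exists_inst f6222E_fam hV hconf hα (by
    intro z hz
    rw [List.mem_cons, List.mem_singleton] at hz
    rcases hz with rfl | rfl
    · have e : (Finset.univ.filter fun u =>
          ∀ y ∈ [((1 : ℕ), (1 : ℕ))], (cdAt f6222E_cd y.1).d (xs (fun u => (f1 u - j1).val)
          (fun u => (h u).val) (fun u => (h u).val) y.1 u) = y.2) =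
          (univ.filter fun u => (cdAt f6222E_cd 1).d ((h u).val) = 1) := by
        apply Finset.filter_congr
        intro u _
        simp only [List.mem_singleton, forall_eq]
        rfl
      rw [e]
      have e2 : (univ.filter fun u => (cdAt f6222E_cd 1).d ((h u).val) = 1).card = 8 :=
        hcard.trans hsum
      rw [e2]
      exact ⟨le_rfl, le_rfl⟩
    · refine ext_one (x := x) ?_ ?_ ?_
      · rw [hx1, sub_self, ZMod.val_zero]; rfl
      · rw [hx]; rfl
      · intro u _ hu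
        exact uniq_of_wt hw0 hx ((ZMod.val_eq_zero _).1 (hdg3 _ (ZMod.val_lt _) hu)))
  simp only [List.mem_cons, List.not_mem_nil, or_false] at hIs
  rcases hIs with rfl | rfl | rfl
  · rw [List.mem_singleton] at hI
    subst hI
    exact hU0 M hM
  · rw [List.mem_singleton] at hI
    subst hI
    exact hU1 M hM
  · rw [List.mem_singleton] at hI
    subst hI
    exact hU2 M hM

end

end Pool.Agent.Work.MP_92a29d_co.Place
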