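import Pool.Agent.Work.MP_92a29d_co_h62.Level
import Pool.Agent.Work.MP_92a29d_co_h62.Moebius
import Pool.Agent.Work.MP_92a29d_co_h36.BFinal

/-!
(6,2,2,2): the covering theorem.
-/

namespace Pool.Agent.Work.MP_92a29d_co.Place

open SimpleGraph Finset Pool.Agent.Work.MP_92a29d_co_h45

section

variable {V : Type*} [Fintype V] [DecidableEq V] {G : Fin 4 → SimpleGraph V}

omit [DecidableEq V] in
theorem wt_six_sub (h : V → ZMod 12) {l : ℕ} (hl : l < 12) :
    wt (fun u => 6 - h u) (l : ZMod 12) = wt h (((18 - l) % 12 : ℕ) : ZMod 12) := by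
  classical
  rw [wt_eq, wt_eq]
  congr 1
  apply Finset.filter_congr
  intro u _
  have e : (((18 - l) % 12 : ℕ) : ZMod 12) = 6 - (l : ZMod 12) := by
    rw [ZMod.natCast_mod, Nat.cast_sub (by omega)]
    have h18 : ((18 : ℕ) : ZMod 12) = 6 := by decide
    rw [h18]
  rw [e]
  constructor
  · intro h1; rw [← h1]; ring
  · intro h1; rw [h1]; ring

theorem moebius_case (hV : Fintype.card V = 17) (hcov : Cover V ![6, 2, 2, 2] G)
    (hα : ∀ i, AlphaEight (G i)) {h0 : V → ZMod 12} (hh0 : MHom (G 1) h0)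
    (hne : ∀ a, 1 ≤ wt h0 a) (he : 39 ≤ ecard (G 1))
    {f1 : V → ZMod (2 * 6 + 3)} {j : ZMod (2 * 6 + 3)} (h1 : SixAt (G 0) f1 j 13)
    (hC : ∀ M, ¬ IsModel f6222C_I0 M) (hD : ∀ M, ¬ IsModel f6222D_I0 M)
    (hE0 : ∀ M, ¬ IsModel f6222E_I0 M) (hE1 : ∀ M, ¬ IsModel f6222E_I1 M)
    (hE2 : ∀ M, ¬ IsModel f6222E_I2 M) : False := by
  obtain ⟨h, hh, hw, hs⟩ := hh0.exists_pattern hV hne he
  have hex : ∀ a : ℕ, a < 12 → ∃ x, h x = (a : ZMod 12) := by
    intro a ha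
    classical
    have h2 := (hw a ha).1
    rw [wt_eq] at h2
    obtain ⟨x, hx⟩ := Finset.card_pos.1 (lt_of_lt_of_le Nat.zero_lt_one h2)
    exact ⟨x, (mem_filter.1 hx).2⟩
  obtain ⟨x, hx⟩ := hex 0 (by norm_num)
  obtain ⟨y, hy⟩ := hex 6 (by norm_num)
  rw [Nat.cast_zero] at hx
  rw [Nat.cast_ofNat] at hy
  obtain ⟨s, hs15, hxs⟩ := exists_pos f1 j x
  obtain ⟨t, ht15, hyt⟩ := exists_pos f1 j y
  by_cases hs12 : s ≤ 12
  · exact case_C hV hcov hα hh hw hs (h1.rot hs12) hx (by omega) hxs hC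
  by_cases ht12 : t ≤ 12
  · refine case_C hV hcov hα (hh.neg_sub 6) (fun l hl => ?_) ?_ (h1.rot ht12)
      (x := y) (by rw [hy, sub_self]) (by omega) hyt hC
    · rw [wt_six_sub h hl]
      have h3 := hw ((18 - l) % 12) (Nat.mod_lt _ (by norm_num))
      have h4 : szm.getD ((18 - l) % 12) 0 = szm.getD l 0 := by
        clear h3
        revert l
        decide
      rw [h4] at h3
      exact h3
    · refine Eq.trans ?_ hs
      simp only [List.map_cons, List.map_nil, List.sum_cons, List.sum_nil]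
      rw [wt_six_sub h (by norm_num), wt_six_sub h (by norm_num), wt_six_sub h (by norm_num),
        wt_six_sub h (by norm_num), wt_six_sub h (by norm_num)]
      have e1 : (18 - 1) % 12 = 5 := by norm_num
      have e3 : (18 - 3) % 12 = 3 := by norm_num
      have e5 : (18 - 5) % 12 = 1 := by norm_num
      have e8 : (18 - 8) % 12 = 10 := by norm_num
      have e10 : (18 - 10) % 12 = 8 := by norm_num
      rw [e1, e3, e5, e8, e10]
      omega
  have cs : ∀ {s : ℕ} {z : V}, s < 15 → ¬ s ≤ 12 → f1 z = j + s →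
      f1 z = j + 13 ∨ f1 z = j + 14 := by
    intro s z h2 h3 h4
    have : s = 13 ∨ s = 14 := by omega
    rcases this with rfl | rfl
    · left; rw [h4, Nat.cast_ofNat]
    · right; rw [h4, Nat.cast_ofNat]
  obtain ⟨f', j', h', hx', hy'⟩ := h1.two (cs hs15 hs12 hxs) (cs ht15 ht12 hyt)
  rcases hy' with hy' | hy'
  · exact case_D hV hcov hα hh hw hs h' hx hy hx' hy' hD
  · exact case_E hV hcov hα hh hw hs h' hx hy hx' hy' hE0 hE1 hE2

/-- one class with at least 39 edges -/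
theorem case_first (hV : Fintype.card V = 17) (hcov : Cover V ![6, 2, 2, 2] G)
    (he : 39 ≤ ecard (G 1))
    (hA1 : ∀ M, ¬ IsModel f6222A1_I0 M) (hA2 : ∀ M, ¬ IsModel f6222A2_I0 M)
    (hB : ∀ M, ¬ IsModel f6222B_I0 M) (hL0 : ∀ M, ¬ IsModel f6222L_I0 M)
    (hL1 : ∀ M, ¬ IsModel f6222L_I1 M)
    (hC : ∀ M, ¬ IsModel f6222C_I0 M) (hD : ∀ M, ¬ IsModel f6222D_I0 M)
    (hE0 : ∀ M, ¬ IsModel f6222E_I0 M) (hE1 : ∀ M, ¬ IsModel f6222E_I1 M)
    (hE2 : ∀ M, ¬ IsModel f6222E_I2 M) : False := by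
  classical
  have hα := tuple_6222.alphaEight hcov
  obtain ⟨f1, hf1⟩ := cycHom_of_four_le hV (m := 6) (by norm_num) (hα 0) (hcov.girth 0)
  obtain ⟨j, h1⟩ := exists_sixAt hV hf1 (hα 0)
  have hlev : (∃ f : V → ZMod (2 * 2 + 3), CycHom (G 1) (2 * 2 + 3) f) → False := by
    rintro ⟨f, hf⟩
    have hc := cover_perm hcov (Equiv.swap 0 1)
    have hm : (fun i => (![6, 2, 2, 2] : Fin 4 → ℕ) ((Equiv.swap 0 1 : Fin 4 ≃ Fin 4) i)) =
        ![2, 6, 2, 2] := by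
      decide
    rw [hm] at hc
    exact level_case hV hc (fun i => hα _) (f := f) hf (f1 := f1) (j := j) h1 hA1 hA2 hB hL0 hL1
  have he' : 39 ≤ (G 1).edgeFinset.card := by
    rw [← ecard_eq]
    exact he
  rcases Ball.classify hV (hcov.girth 1) (hα 1) he' with h | ⟨f, _, hf⟩
  · exact hlev h
  · rcases (mhom_of_nat hf).cases with h | h
    · exact hlev h
    · exact moebius_case hV hcov hα (mhom_of_nat hf) h he h1 hC hD hE0 hE1 hE2

/-- **(6,2,2,2)**: a covering gives a model of one of ten instances. -/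
theorem case_6222 (hV : Fintype.card V = 17) (hcov : Cover V ![6, 2, 2, 2] G)
    (hA1 : ∀ M, ¬ IsModel f6222A1_I0 M) (hA2 : ∀ M, ¬ IsModel f6222A2_I0 M)
    (hB : ∀ M, ¬ IsModel f6222B_I0 M) (hL0 : ∀ M, ¬ IsModel f6222L_I0 M)
    (hL1 : ∀ M, ¬ IsModel f6222L_I1 M)
    (hC : ∀ M, ¬ IsModel f6222C_I0 M) (hD : ∀ M, ¬ IsModel f6222D_I0 M)
    (hE0 : ∀ M, ¬ IsModel f6222E_I0 M) (hE1 : ∀ M, ¬ IsModel f6222E_I1 M)
    (hE2 : ∀ M, ¬ IsModel f6222E_I2 M) : False := by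
  have hα := tuple_6222.alphaEight hcov
  obtain ⟨f1, hf1⟩ := cycHom_of_four_le hV (m := 6) (by norm_num) (hα 0) (hcov.girth 0)
  have h20 := ecard_le_six hV hf1 (hα 0)
  have hsum := hcov.ecard_sum hV
  rw [Fin.sum_univ_four] at hsum
  have hi : 39 ≤ ecard (G 1) ∨ 39 ≤ ecard (G 2) ∨ 39 ≤ ecard (G 3) := by omega
  rcases hi with he | he | he
  · exact case_first hV hcov he hA1 hA2 hB hL0 hL1 hC hD hE0 hE1 hE2
  · have hc := cover_perm hcov (Equiv.swap 1 2)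
    have hm : (fun i => (![6, 2, 2, 2] : Fin 4 → ℕ) ((Equiv.swap 1 2 : Fin 4 ≃ Fin 4) i)) =
        ![6, 2, 2, 2] := by
      decide
    rw [hm] at hc
    exact case_first hV hc he hA1 hA2 hB hL0 hL1 hC hD hE0 hE1 hE2
  · have hc := cover_perm hcov (Equiv.swap 1 3)
    have hm : (fun i => (![6, 2, 2, 2] : Fin 4 → ℕ) ((Equiv.swap 1 3 : Fin 4 ≃ Fin 4) i)) =
        ![6, 2, 2, 2] := by
      decide
    rw [hm] at hc
    exact case_first hV hc he hA1 hA2 hB hL0 hL1 hC hD hE0 hE1 hE2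

end

end Pool.Agent.Work.MP_92a29d_co.Place
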